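import Pool.Agent.Lib.KP.Blue

/-! Project ra1: a function that is defined locally up to holomorphic functions has a real part
that is pluriharmonic up to a global smooth function. -/

open scoped Classical Topology ContDiff ComplexOrder Matrix
open Set MeasureTheory Complex Metric Filter

set_option linter.unusedVariables false

noncomputable section

namespace Pool.Agent.Lib.RAF

open Pool.Agent.Lib.SV (E)
open Pool.Agent.Lib.HS32

/-- Vanishing of the first cohomology of the structure sheaf, up to imaginary constants. -/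
def St_H1O : Prop := ∀ (n : ℕ) (M : Mf n) [M.Cpt] (H : M.Fam (Mat n)) (β : M.X → M.X → ℂ),
  0 < n → M.Kae H → (∀ x, M.Sm (β x)) →
  (∀ x, ∀ᶠ y in 𝓝 x, ∀ e ∈ M.C, y ∈ e.source →
    HolN (fun z => β x (e.symm z) - β y (e.symm z)) (e y)) →
  ∃ w : M.X → ℝ, M.Sm w ∧ ∀ x, ∀ᶠ y in 𝓝 x, ∀ e ∈ M.C, y ∈ e.source →
    M.hs (fun p => 2 * (β x p).re + w p) e (e y) = 0

namespace H1OB

variable {n : ℕ} {M : Mf n}

theorem loc {β : M.X → M.X → ℂ}
    (h : ∀ x, ∀ᶠ y in 𝓝 x, ∀ e ∈ M.C, y ∈ e.source →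
      HolN (fun z => β x (e.symm z) - β y (e.symm z)) (e y))
    {e : M.Ch} (he : e ∈ M.C) {z : E n} (hz : z ∈ e.target) :
    ∀ᶠ w in 𝓝 z, w ∈ e.target ∧
      HolN (fun u => β (e.symm z) (e.symm u) - β (e.symm w) (e.symm u)) w := by
  filter_upwards [(e.continuousAt_symm hz).eventually (h (e.symm z)),
    e.open_target.mem_nhds hz] with w h1 h2
  have := h1 e he (e.map_target h2)
  rw [e.right_inv h2] at this
  exact ⟨h2, this⟩

theorem dzb_eq {f g : E n → ℂ} {z : E n} (hf : ContDiffAt ℝ ∞ f z) (hg : ContDiffAt ℝ ∞ g z)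
    (h : HolN (fun u => f u - g u) z) (j : Fin n) : dzb j g z = dzb j f z := by
  have h1 := ((mHOL n _ z).1 ((cd_diff hf).sub (cd_diff hg))).1 h.self_of_nhds j
  have h2 := dzb_sub (j := j) (cd_diff hf) (cd_diff hg)
  exact (sub_eq_zero.1 (h2.symm.trans h1)).symm

theorem hess_eq {f g : E n → ℂ} {z : E n} (hf : ContDiffAt ℝ ∞ f z) (hg : ContDiffAt ℝ ∞ g z)
    (h : HolN (fun u => f u - g u) z) : hess g z = hess f z := by
  have h1 := ((mHOL n _ z).2.2 h).2.2.1
  rw [hess_sub hf hg] at h1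
  exact (sub_eq_zero.1 h1).symm

theorem hess_re {f : E n → ℂ} {z : E n} (hf : ContDiffAt ℝ ∞ f z) :
    hess (fun u => ((2 * (f u).re : ℝ) : ℂ)) z = hess f z + (hess f z)ᴴ := by
  rw [← hess_star hf, ← hess_add hf (cd_star hf)]
  congr 1
  funext u
  rw [show star (f u) = (starRingEnd ℂ) (f u) from rfl, add_conj]

/-- The complex Hessian of the local functions. -/
def th (β : M.X → M.X → ℂ) : M.Fam (Mat n) := fun e z => hess (β (e.symm z) ∘ e.symm) z

/-- The Hessian of twice the real part. -/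
def tr2 (β : M.X → M.X → ℂ) : M.Fam (Mat n) := fun e z =>
  M.hs (fun p => 2 * (β (e.symm z) p).re) e z

theorem tr2_eq {β : M.X → M.X → ℂ} (hs : ∀ x, M.Sm (β x)) :
    M.All fun e z => tr2 β e z = th β e z + (th β e z)ᴴ := fun e he z hz =>
  hess_re (hs _ e he z hz)

theorem tr2_loc {β : M.X → M.X → ℂ} (hs : ∀ x, M.Sm (β x))
    (h : ∀ x, ∀ᶠ y in 𝓝 x, ∀ e ∈ M.C, y ∈ e.source →
      HolN (fun z => β x (e.symm z) - β y (e.symm z)) (e y))
    {e : M.Ch} (he : e ∈ M.C) {z : E n} (hz : z ∈ e.target) :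
    tr2 β e =ᶠ[𝓝 z] M.hs (fun p => 2 * (β (e.symm z) p).re) e := by
  filter_upwards [loc h he hz] with w ⟨h1, h2⟩
  rw [tr2_eq hs e he w h1]
  exact (congrArg (fun A : Mat n => A + Aᴴ) (hess_eq (hs _ e he w h1) (hs _ e he w h1) h2)).trans
    (hess_re (hs _ e he w h1)).symm

theorem tr2_clo {β : M.X → M.X → ℂ} (hs : ∀ x, M.Sm (β x))
    (h : ∀ x, ∀ᶠ y in 𝓝 x, ∀ e ∈ M.C, y ∈ e.source →
      HolN (fun z => β x (e.symm z) - β y (e.symm z)) (e y)) : M.Clo (tr2 β) := by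
  have hc : ∀ x, M.Clo (M.hs fun p => 2 * (β x p).re) := fun x =>
    (mHES n M).1 _ ((hs x).re.const_mul 2)
  refine ⟨⟨⟨fun e he z hz => ((hc _).sm e he z hz).congr (tr2_loc hs h he hz),
    fun e he e' he' x hx hx' => ?_⟩, fun e he z hz => (hc _).herm e he z hz⟩,
    fun e he z hz => ((hc _).cl e he z hz).congr (tr2_loc hs h he hz)⟩
  simp only [tr2, e.left_inv hx, e'.left_inv hx']
  exact (hc x).cmp e he e' he' x hx hx'

theorem int_tr [hM : M.Cpt] {β : M.X → M.X → ℂ} (hs : ∀ x, M.Sm (β x))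
    (h : ∀ x, ∀ᶠ y in 𝓝 x, ∀ e ∈ M.C, y ∈ e.source →
      HolN (fun z => β x (e.symm z) - β y (e.symm z)) (e y))
    {G : M.Fam (Mat n)} (hG : M.Kae G) : ∫ x, M.tr G (tr2 β) x ∂M.mu G = 0 := by
  have hm := hG.toMet
  have h1 : M.Sm fun _ : M.X => (1 : ℂ) := Mf.sm_const 1
  have hv : ∀ x, M.VDen fun e => BGRN.fld (G e) (β x ∘ e.symm) ((fun _ => 1) ∘ e.symm) :=
    fun x => BGRN.vden mCHN mCOF mTR M hm.toTen (hs x) h1
  set W : M.Fam (E n) := fun e z =>
    BGRN.fld (G e) (β (e.symm z) ∘ e.symm) ((fun _ => 1) ∘ e.symm) z with hW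
  have hl : M.All fun e z => W e =ᶠ[𝓝 z]
      BGRN.fld (G e) (β (e.symm z) ∘ e.symm) ((fun _ => 1) ∘ e.symm) := fun e he z hz => by
    filter_upwards [loc h he hz] with w ⟨h1, h2⟩
    simp only [hW, BGRN.fld]
    congr 2
    funext i
    exact dzb_eq (hs _ e he w h1) (hs _ e he w h1) h2 i
  have hWv : M.VDen W := ⟨fun e he z hz =>
    ((hv _).sm e he z hz).congr_of_eventuallyEq (hl e he z hz), fun e he e' he' x hx hx' => by
      simp only [hW, e.left_inv hx, e'.left_inv hx']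
      exact (hv x).cmp e he e' he' x hx hx'⟩
  obtain ⟨-, hS, hZ⟩ := (mDIV n M G hm).2.1 W hWv
  have h2 := integral_re ((mMU n M G hm).2.2.2.2.1 ℂ _ hS.continuous)
  rw [hZ hM, map_zero] at h2
  rw [← mul_zero (2 : ℝ), ← h2, ← integral_const_mul]
  refine integral_congr_ae (Eventually.of_forall fun x => ?_)
  have he := Mf.ch_mem x
  have hz := Mf.ch_tgt x
  have e1 : dv (W (M.ch x)) (M.ch x x) =
      ((G (M.ch x) (M.ch x x)).adjugate * th β (M.ch x) (M.ch x x)).trace := by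
    have e2 : dv (W (M.ch x)) (M.ch x x) = dv (BGRN.fld (G (M.ch x))
        (β ((M.ch x).symm (M.ch x x)) ∘ (M.ch x).symm) ((fun _ => 1) ∘ (M.ch x).symm))
        (M.ch x x) :=
      Finset.sum_congr rfl fun j _ => dz_congr ((hl _ he _ hz).mono fun w hw => congrFun hw j)
    rw [e2, BGRN.fld_dv mCOF (hm.sm _ he _ hz) (hG.cl _ he _ hz) (hs _ _ he _ hz) (h1 _ he _ hz)]
    congr 2
    ext i j
    have : dz j ((fun _ : M.X => (1 : ℂ)) ∘ (M.ch x).symm) (M.ch x x) = 0 := BGRN.dz_const _ _ _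
    simp only [Matrix.add_apply, dd, Matrix.of_apply, this, mul_zero, zero_add,
      Function.comp_apply, one_smul, th]
  have hinv : ∀ A B : Mat n, (A.adjugate * B).trace / A.det = (A⁻¹ * B).trace := by
    intro A B
    rw [Matrix.inv_def, Ring.inverse_eq_inv', Matrix.smul_mul, Matrix.trace_smul, smul_eq_mul,
      div_eq_inv_mul]
  have hh := (hm.herm _ he _ hz).inv
  simp only [Mf.tr, Mf.ev, e1, hinv, tr2_eq hs _ he _ hz, Matrix.mul_add, Matrix.trace_add, add_re,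
    RCLike.re_to_complex]
  have e3 : ((G (M.ch x) (M.ch x x))⁻¹ * (th β (M.ch x) (M.ch x x))ᴴ).trace =
      star ((G (M.ch x) (M.ch x x))⁻¹ * th β (M.ch x) (M.ch x x)).trace := by
    rw [← Matrix.trace_conjTranspose, Matrix.conjTranspose_mul, hh.eq, Matrix.trace_mul_comm]
  rw [e3, star_def, conj_re]
  ring

theorem alg {A B : Mat n} (hA : A.PosDef) (hB : B.IsHermitian) (hG : (A + B).PosDef)
    (h0 : (A⁻¹ * B).trace.re = 0) :
    ((A + B)⁻¹ * B).trace.re ≤ 0 ∧ (((A + B)⁻¹ * B).trace.re = 0 → B = 0) := by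
  have u1 : IsUnit A.det := (Mf.pd_det_ne hA).isUnit
  have u2 : IsUnit (A + B).det := (Mf.pd_det_ne hG).isUnit
  have e1 : (A + B)⁻¹ = A⁻¹ - A⁻¹ * B * (A + B)⁻¹ := by
    rw [eq_sub_iff_add_eq]
    calc (A + B)⁻¹ + A⁻¹ * B * (A + B)⁻¹ = A⁻¹ * (A + B) * (A + B)⁻¹ := by
          rw [Matrix.mul_add A⁻¹, Matrix.nonsing_inv_mul _ u1, Matrix.add_mul, Matrix.one_mul]
      _ = A⁻¹ := by rw [Matrix.mul_assoc, Matrix.mul_nonsing_inv _ u2, Matrix.mul_one]
  have hP : (B * (A + B)⁻¹ * B).PosSemidef := by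
    simpa only [hB.eq] using hG.inv.posSemidef.conjTranspose_mul_mul_same B
  have e2 : ((A + B)⁻¹ * B).trace.re = -(A⁻¹ * (B * (A + B)⁻¹ * B)).trace.re := by
    conv_lhs => rw [e1]
    rw [Matrix.sub_mul, Matrix.trace_sub, sub_re, h0, zero_sub]
    simp only [Matrix.mul_assoc]
  have h1 := Mf.trace_inv_mul_nonneg hA hP
  refine ⟨by rw [e2]; linarith, fun h => ?_⟩
  obtain ⟨U, hU⟩ := Mf.psd_factor hA.inv.posSemidef
  obtain ⟨V, hV⟩ := Mf.psd_factor hG.inv.posSemidef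
  have e3 : (A⁻¹ * (B * (A + B)⁻¹ * B)).trace = ((V * B * Uᴴ)ᴴ * (V * B * Uᴴ)).trace := by
    rw [hU, hV, Matrix.mul_assoc, Matrix.trace_mul_comm]
    simp only [Matrix.conjTranspose_mul, Matrix.conjTranspose_conjTranspose, hB.eq,
      Matrix.mul_assoc]
  have h2 : ((V * B * Uᴴ)ᴴ * (V * B * Uᴴ)).trace = 0 := by
    have h3 := (Matrix.posSemidef_conjTranspose_mul_self (V * B * Uᴴ)).trace_nonneg
    refine Complex.ext ?_ (Complex.nonneg_iff.1 h3).2.symm
    rw [← e3, zero_re]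
    linarith
  have h4 := Matrix.trace_conjTranspose_mul_self_eq_zero_iff.1 h2
  have e4 : (A + B)⁻¹ * B * A⁻¹ = 0 := by
    calc (A + B)⁻¹ * B * A⁻¹ = Vᴴ * (V * B * Uᴴ) * U := by
          rw [hU, hV]; simp only [Matrix.mul_assoc]
      _ = 0 := by rw [h4, Matrix.mul_zero, Matrix.zero_mul]
  calc B = (A + B) * ((A + B)⁻¹ * B * A⁻¹) * A := by
        rw [Matrix.mul_assoc, Matrix.mul_assoc, Matrix.nonsing_inv_mul _ u1, Matrix.mul_one,
          ← Matrix.mul_assoc, Matrix.mul_nonsing_inv _ u2, Matrix.one_mul]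
    _ = 0 := by rw [e4, Matrix.mul_zero, Matrix.zero_mul]

end H1OB

open H1OB in
theorem st_H1O (hPOI : KP.St_POI) : St_H1O := by
  intro n M _ H β hn hH hs h
  have hm := hH.toMet
  have hc := tr2_clo hs h
  have hsm : ∀ G, M.Met G → ∀ T, M.Ten T → M.Sm (M.tr G T) := fun G hG T hT =>
    ((mINV n M G hG).1 T hT).2.1
  obtain ⟨w, c, hw, hwc⟩ := hPOI n M H _ hn hH (hsm H hm _ hc.toTen)
  have hT : M.Clo (tr2 β + M.hs w) := hc.add ((mHES n M).1 w hw)
  have hI : ∀ G, M.Kae G → ∫ x, M.tr G (tr2 β + M.hs w) x ∂M.mu G = 0 := fun G hG => by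
    have hi := (mMU n M G hG.toMet).2.2.2.2.1 ℝ
    simp only [Mf.tr_add]
    rw [integral_add (hi _ (hsm G hG.toMet _ hc.toTen).continuous)
      (hi _ (hsm G hG.toMet _ ((mHES n M).1 w hw).toTen).continuous), int_tr hs h hG, zero_add]
    exact ((mGRN n M).2 G w w hG hw hw).1
  have h1 : ∀ x, M.tr H (tr2 β + M.hs w) x = c := fun x => by
    have := hwc x
    rw [Mf.tr_add]
    unfold Mf.lap at this
    linarith
  have hc0 : c = 0 := by
    have h2 := hI H hH
    simp only [h1, integral_const, smul_eq_mul] at h2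
    exact (mul_eq_zero.1 h2).resolve_left (mMU n M H hm).2.2.2.1.ne'
  obtain ⟨C, hC, -, hlo⟩ := (mBD n M H hm).1 _ hT.toForm
  set t : ℝ := 1 / (2 * C) with ht
  have ht0 : 0 < t := by positivity
  set B := t • (tr2 β + M.hs w) with hB
  have hBc : M.Clo B := hT.smul t
  have hG : M.Kae (H + B) := by
    have hcl := hH.toClo.add hBc
    refine ⟨hcl, (Mf.Met.of_le (hm.smul (c := 1 / 2) (by norm_num)) hcl.toForm
      fun e he z hz => ?_).pos⟩
    have h3 := Mf.psd_rsmul (hlo e he z hz) ht0.le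
    have e1 : (H + B) e z - ((1 / 2 : ℝ) • H) e z =
        t • ((tr2 β + M.hs w) e z - (-(C • H)) e z) := by
      have : t * C = 1 / 2 := by rw [ht]; field_simp
      simp only [hB, Pi.add_apply, Pi.smul_apply, Pi.neg_apply, sub_neg_eq_add, smul_add,
        smul_smul, this]
      module
    beta_reduce
    rw [e1]
    exact h3
  have ha : ∀ x, M.tr (H + B) B x ≤ 0 ∧ (M.tr (H + B) B x = 0 → M.ev B x = 0) := fun x =>
    alg (hm.ev_pos x) (Mf.AllOn.ch hBc.herm x) (hG.toMet.ev_pos x) (by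
      have := Mf.tr_smul (G := H) (T := tr2 β + M.hs w) (x := x) t
      rw [h1, hc0, mul_zero] at this
      exact this)
  have hz : ∀ x, M.tr (H + B) B x = 0 := by
    obtain ⟨-, hf, hp, -, hi, -⟩ := mMU n M _ hG.toMet
    have hco := (hsm _ hG.toMet _ hBc.toTen).continuous
    have h4 : ∫ x, -M.tr (H + B) B x ∂M.mu (H + B) = 0 := by
      have : ∀ x, M.tr (H + B) B x = t * M.tr (H + B) (tr2 β + M.hs w) x := fun x =>
        Mf.tr_smul t
      simp only [this, integral_neg, integral_const_mul, hI _ hG, mul_zero, neg_zero]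
    have h5 := (hco.neg.ae_eq_iff_eq (M.mu (H + B)) continuous_const).1
      ((integral_eq_zero_iff_of_nonneg (fun x => neg_nonneg.2 (ha x).1) (hi ℝ _ hco.neg)).1 h4)
    exact fun x => neg_eq_zero.1 (congrFun h5 x)
  have hB0 : M.All fun e z => B e z = 0 := Mf.allOn_of_source fun e he x hx => by
    have h6 := hBc.cmp _ (Mf.ch_mem x) e he x (Mf.mem_ch x) hx
    beta_reduce at h6
    rw [h6, show B (M.ch x) (M.ch x x) = 0 from (ha x).2 (hz x), Matrix.mul_zero, Matrix.zero_mul]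
  refine ⟨w, hw, fun x => (h x).mono fun y hy e he hye => ?_⟩
  have hz' := e.map_source hye
  have h7 : (tr2 β + M.hs w) e (e y) = 0 :=
    (smul_eq_zero.1 (hB0 e he _ hz')).resolve_left ht0.ne'
  rw [((mLAP n M _ w ((hs x).re.const_mul 2) hw).1 0 e he _ hz').2.1, ← h7, Pi.add_apply,
    Pi.add_apply, tr2_eq hs e he _ hz']
  congr 1
  refine (hess_re (hs x e he _ hz')).trans ?_
  have h8 := hess_eq (hs x e he _ hz') (hs y e he _ hz') (hy e he hye)
  simp only [H1OB.th, e.left_inv hye, h8]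

end Pool.Agent.Lib.RAF
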