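import Pool.Agent.Lib.RAF.BlueS
import Pool.Agent.Lib.RA.B_TV

/-! Project ra1: the terms of a basic combination are basic, the assembly. -/

open scoped Classical Topology ContDiff ComplexOrder Matrix
open Set MeasureTheory Complex Metric Filter

set_option linter.unusedVariables false

noncomputable section

namespace Pool.Agent.Lib.RAF

open Pool.Agent.Lib.SV (E nsq)
open Pool.Agent.Lib.HS32 Pool.Agent.Lib.RA

namespace BASB

variable {n : ℕ} {M : Mf n}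

theorem an_lg {s : E n → ℂ} {z : E n} (h : HolN s z) (h0 : s z ≠ 0) :
    AnalyticAt ℝ (fun w => Real.log (normSq (s w))) z := by
  have h1 := KA.an_of_hol h
  have h2 := (reCLM.analyticAt _).comp h1
  have h3 := (imCLM.analyticAt _).comp h1
  exact AnalyticAt.comp (g := Real.log) (f := fun w => normSq (s w))
    (analyticAt_log (normSq_pos.2 h0)) ((h2.mul h2).add (h3.mul h3))

theorem hn_ev {φ : M.Fam ℝ} {ν : ℕ} {s : M.Fam ℂ} {W : Set M.X} (hφ : M.Wt 1 φ) (hW : IsOpen W)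
    (hs : MerSec M ν s W) {x : M.X} (hx : x ∈ W) {e : M.Ch} (he : e ∈ M.C) (hxe : x ∈ e.source) :
    hn M φ ν s ∘ e.symm =ᶠ[𝓝 (e x)] fun w => Real.log (normSq (s e w)) - ν * φ e w := by
  filter_upwards [(ev_ch hxe).1 (hW.eventually_mem hx),
    e.open_target.mem_nhds (e.map_source hxe)] with w h1 h2
  rw [Function.comp, hn_ch hφ hs h1 he (e.map_target h2), e.right_inv h2]

theorem an_hn {φ : M.Fam ℝ} {ν : ℕ} {s : M.Fam ℂ} {W : Set M.X} (hφ : M.Wt 1 φ)
    (ha : M.All fun e z => AnalyticAt ℝ (φ e) z) (hW : IsOpen W) (hs : MerSec M ν s W) {x : M.X}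
    (hx : x ∈ W) : AnAt M (hn M φ ν s) x := fun e he hxe =>
  ((an_lg (hs.hol x hx e he hxe).1 (hs.hol x hx e he hxe).2).sub
    (analyticAt_const.mul (ha e he _ (e.map_source hxe)))).congr (hn_ev hφ hW hs hx he hxe).symm

theorem dv1_congr {u u' : E n → ℝ} {z : E n} (h : u =ᶠ[𝓝 z] u') : dv1 u z = dv1 u' z :=
  funext fun i => dz_congr (h.mono fun w hw => by simp only [hw])

end BASB

open BASB in
theorem st_BAS (hDESC : St_DESC) (hUNS : St_UNS) (hBRK : St_BRK) (hTV : St_TV) (hWAD : St_WAD)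
    (hATL : St_ATL) (hMER : St_MER) : St_BAS := by
  intro n k j N M _ κ _ G φ μ Φ δ c H x₁ W l ν s F hS hμ hT hN hH hsub hδ hW hx hl hs hF i
  set w : M.X → ℝ := fun x => ∑ i, l i * hn M φ (ν i) (s i) x with hw
  have hwa : ∀ x ∈ W, AnAt M w x := fun x hx e he hxe =>
    Finset.analyticAt_fun_sum (f := fun i z => l i * hn M φ (ν i) (s i) (e.symm z)) _ fun i _ =>
      analyticAt_const.mul (an_hn hS.wt hS.an hW.1 (hs i) hx e he hxe)
  obtain ⟨ε, hε, han⟩ := hDESC n k j M H x₁ w F hH.iso.1 hsub (hwa x₁ hx) hF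
  set t₁ := pj (H x₁) with ht₁
  have hp₁ : pj t₁ = t₁ := TVB.pj_pj _
  obtain ⟨δ₁, d0, d1, d2, hT₁, hph, hfin⟩ := (hTV k j Φ δ c hT).2.2.2.2.2 t₁ (ε / 2) hp₁ hδ
    (half_pos hε)
  set Φ₁ : E (k + j) × E (k + j) → ℂ := fun y => Φ (y + dg t₁) with hΦ₁
  set g : E (k + j) → ℝ := fun t => F (pj (t + t₁)) with hg
  have hga : ∀ t, ‖pj t‖ < 2 * δ₁ → AnalyticAt ℝ g t := fun t ht =>
    AnalyticAt.comp (g := fun t' => F (pj t')) (f := fun t => t + t₁) (han _ (by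
      rw [TVB.pj_add, hp₁, add_sub_cancel_right]; linarith)) (analyticAt_id.add analyticAt_const)
  obtain ⟨hP, hI, -⟩ := hWAD n k j M φ μ Φ₁ δ₁ (c / 2) hS.wt hS.an hT₁
  have hP := hP hμ
  set Q : (M.X → E (k + j)) → M.X → Prop := fun H' y =>
    WAdm M (M.hw φ) μ Φ₁ δ₁ H' y ∧ ∀ᶠ x in 𝓝 y, x ∈ W → w x = g (H' x) with hQ
  have hM := (hMER n M).2.1.2 W hW
  have hQP : Prd M φ μ Φ₁ δ₁ Q := by
    refine ⟨fun H' y h => h.1, fun H' H'' y h ht => ⟨hP.tr _ _ _ h.1 ht, ?_⟩,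
      fun e he a R hb H' hd hv z hz h z' hz' => ⟨hP.prop e he a R hb H' hd hv z hz h.1 z' hz', ?_⟩⟩
    · obtain ⟨a, ha⟩ := ht
      filter_upwards [h.2, ha] with x h1 h2 h3
      rw [h1 h3, h2]
      simp only [hg]
      rw [add_right_comm, TVB.pj_tr]
    · have h1 : AnalyticOnNhd ℝ (w ∘ e.symm) (ball a R ∩ e.symm ⁻¹' W) := fun y hy =>
        KA.at_tgt he (hb hy.1) (hwa _ hy.2)
      have h2 : AnalyticOnNhd ℝ (g ∘ H' ∘ e.symm) (ball a R ∩ e.symm ⁻¹' W) := fun y hy =>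
        AnalyticAt.comp (g := g) (f := H' ∘ e.symm) (hga _ (hv y hy.1))
          (KA.an_of_hol (KA.holN_of_on isOpen_ball hd hy.1))
      have h3 : ∃ᶠ y in 𝓝 z, e.symm y ∈ W := by
        have h4 := (fr_ch (e.map_target (hb hz))).1 (mem_closure_iff_frequently.1 (hM.1 (e.symm z)))
        rwa [e.right_inv (hb hz)] at h4
      obtain ⟨y, h4, h5, h6⟩ := (h3.and_eventually (((KA.ev_iff' (hb hz)).1 h.2).eventually_nhds.and
        (isOpen_ball.eventually_mem hz))).exists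
      have h7 := h1.eqOn_of_preconnected_of_eventuallyEq h2 (hM.2.2.1 e he a R hb) ⟨h6, h4⟩ (by
        filter_upwards [h5, (KA.ev_iff' (hb h6)).1 (hW.1.eventually_mem h4)] with v a b using a b)
      rw [KA.ev_iff' (hb hz')]
      filter_upwards [isOpen_ball.eventually_mem hz'] with v a b using h7 ⟨a, b⟩
  obtain ⟨m, O, Hs, χ, hA⟩ := hATL n k j N M φ μ Φ₁ δ₁ (c / 2) Q hS.toPot hT₁ (hfin N hN) hQP
  obtain ⟨u, hu1, hu2⟩ := hUNS n M κ φ W (⋃ a, O a) l ν s hS.wt hW hl hs (fun x hx => by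
    obtain ⟨a, ha⟩ := mem_iUnion.1 hx
    obtain ⟨⟨h1, h2⟩, h3, -⟩ := hA.q a x ha
    have h4 : ContinuousAt (fun y => |g (Hs a y)|) x :=
      (ContinuousAt.comp (g := g) (hga _ h1.val).continuousAt h3.cont).abs
    refine ⟨|g (Hs a x)| + 1, ?_⟩
    filter_upwards [h2, h4.eventually (gt_mem_nhds (lt_add_one _))] with y h5 h6 h7
    exact (congrArg abs (h5 h7)).trans_le h6.le) i
  have e0 : pj (H x₁ - t₁) = 0 := by
    have := TVB.pj_add (H x₁ - t₁) t₁
    rw [sub_add_cancel, hp₁, ← ht₁] at this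
    exact (right_eq_add.1 this)
  have hQ₁ : Q (fun x => H x - t₁) x₁ := by
    refine ⟨⟨⟨hH.iso.1.sub (holAt_const _), ?_⟩, by rw [e0, norm_zero]; linarith, ?_⟩, ?_⟩
    · have : (ph0 Φ₁ ∘ fun x => H x - t₁) = ph0 Φ ∘ H := funext fun x => by
        simp only [Function.comp, (hph _).1, sub_add_cancel]
      rw [this]
      exact hH.iso.2
    · simpa only [(hph _).2, sub_add_cancel] using hH.mom
    · filter_upwards [hF] with x h1 _
      simpa only [hg, sub_add_cancel] using h1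
  have hk := hBRK n k j m N M G φ Q (δ₁ / 2) _ O Hs χ u (-(ν i : ℝ)) _ x₁ hS (half_pos d0) hA
    (fun a x hx => ⟨(hu2 x (mem_iUnion.2 ⟨a, hx⟩)).1, fun e he hxe =>
      ⟨(hu2 x (mem_iUnion.2 ⟨a, hx⟩)).2 e he hxe, fun v => (((hI _ x (hA.q a x hx).1.1.iso
        (hA.q a x hx).1.1.val).2.2 e he hxe).2.2 v).1⟩⟩) hQ₁ hQ₁.1.iso.1.cont e0
    (((hWAD n k j M φ μ Φ δ c hS.wt hS.an hT).2.1 H x₁ hH.iso hH.val).1.1 hsub)
  filter_upwards [hk, hW.1.eventually_mem hx] with y h1 h2 e he hye v hv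
  rw [← dv1_congr (hn_ev hS.wt hW.1 (hs i) h2 he hye), ← h1 e he hye v hv]
  congr 1
  refine dv1_congr (KA.eq_chart ?_ hye)
  filter_upwards [hW.1.eventually_mem h2] with x h3 using (hu1 x h3).symm

theorem st_BASF (hBAS : St_BAS) : St_BASF := by
  intro n k j N M _ κ _ G φ μ Φ δ c H x₁ W l f F hS hμ hT hN hH hsub hδ hW hx hl hf hF i
  have hs : ∀ i, MerSec M 0 (fun e z => f i (e.symm z)) W := fun i => by
    refine ⟨fun e he e' he' x h1 h2 _ => ?_, fun x hx e he h1 => ⟨((hf i).2 x hx).1 e he h1, ?_⟩,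
      fun e he z hz => ?_⟩
    · simp only [e.left_inv h1, e'.left_inv h2, pow_zero, mul_one]
    · simpa only [e.left_inv h1] using ((hf i).2 x hx).2
    · obtain ⟨O, d, a, h1, h2, h3, h4⟩ := (hf i).1 (e.symm z)
      refine ⟨a ∘ e.symm, d ∘ e.symm, KA.at_tgt he hz (h3 _ h1), KA.at_tgt he hz (h2.hol _ h1),
        ?_, ?_⟩
      · have h5 := (fr_ch (e.map_target hz)).1 (h2.ne _ h1)
        rwa [e.right_inv hz] at h5
      · filter_upwards [(KA.ev_iff' hz).1 (h2.op.eventually_mem h1)] with v h5 _ h6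
        exact h4 _ h5 h6
  have h1 := hBAS n k j N M κ G φ μ Φ δ c H x₁ W l (fun _ => 0) _ F hS hμ hT hN hH hsub hδ hW hx hl
    hs (by simpa only [hn, Mf.ev, (M.ch _).left_inv (Mf.mem_ch _), Nat.cast_zero, zero_mul,
      sub_zero] using hF) i
  filter_upwards [h1, hW.1.eventually_mem hx] with y h2 h3 e he hye v hv
  have h4 := h2 e he hye v hv
  obtain ⟨h5, h6⟩ := (hs i).hol y h3 e he hye
  have h7 := (((mHOL n _ _).2.2 h5).2.2.2 h6).2.2
  have h8 := (mHOL n _ _).2.1 h5.self_of_nhds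
  simp only [Nat.cast_zero, zero_mul, sub_zero, dotProduct, dv1, h7, h8] at h4
  have h9 : v = ∑ a, v a • Pi.single a (1 : ℂ) := by
    ext b; simp [Finset.sum_apply, Pi.single_apply]
  rw [h9, map_sum]
  simp only [map_smul, smul_eq_mul]
  simp only [div_mul_eq_mul_div, ← Finset.sum_div, div_eq_zero_iff, h6, or_false] at h4
  exact (Finset.sum_congr rfl fun a _ => mul_comm _ _).trans h4

end Pool.Agent.Lib.RAF
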