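import Pool.Agent.Lib.RAF.BlueS
import Pool.Agent.Lib.RA.B_GIBP
import Pool.Agent.Lib.RA.B_TOP
import Pool.Agent.Lib.RA.B_CH2
import Pool.Agent.Lib.RA.B_TV
import Pool.Agent.Lib.RA.B_X0

/-! Project ra1: a function whose Hessian is a multiple of the curvature on all branches is
basic. -/

open scoped Classical Topology ContDiff ComplexOrder Matrix
open Set MeasureTheory Complex Metric Filter

set_option linter.unusedVariables false

noncomputable section

namespace Pool.Agent.Lib.RAF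

open Pool.Agent.Lib.SV (E nsq)
open Pool.Agent.Lib.HS32 Pool.Agent.Lib.RA

namespace BRK

theorem dd_q {n : ℕ} (f g : E n → ℂ) (z v : E n) : star v ⬝ᵥ dd f g z *ᵥ v =
    (star v ⬝ᵥ fun i => dzb i f z) * ((fun l => dz l g z) ⬝ᵥ v) := by
  simp only [dotProduct, Matrix.mulVec, dd, Matrix.of_apply]
  rw [Finset.sum_mul_sum]
  refine Finset.sum_congr rfl fun i _ => ?_
  rw [Finset.mul_sum]
  exact Finset.sum_congr rfl fun l _ => by ring

theorem pt {n r m : ℕ} {G B : Mat n} (hG : G.PosDef) (hB : B.PosSemidef) (hk : B.rank ≤ r)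
    {u : E n → ℝ} {ψ : E m → ℝ} {H : E n → E m} {z : E n} {a : ℝ} (c : ℂ)
    (hu : ContDiffAt ℝ ∞ u z) (hψ : ContDiff ℝ ∞ ψ) (hH : HolN H z) (h1 : hr u z = a • B)
    (h2 : ∀ v, B *ᵥ v = 0 → fderiv ℂ H z v = 0) :
    ∃ q : ℝ, 0 ≤ q ∧ (RA28.topS r G B * (dd (fun w => (u w : ℂ))
      (fun w => ((ψ (H w) * u w : ℝ) : ℂ)) z + c • hr u z)).trace / G.det =
        ((ψ (H z) * q : ℝ) : ℂ) ∧
      (B.rank = r → q = 0 → ∀ v, B *ᵥ v = 0 → dv1 u z ⬝ᵥ v = 0) := by
  have T := RA28.top hG hB hk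
  obtain ⟨v, hv, hsp, htr⟩ := T.ker
  have hd : G.det ≠ 0 := hG.det_pos.ne'
  have hu' := cd_diff (cd_ofReal hu)
  have hψ' : DifferentiableAt ℝ (fun t => (ψ t : ℂ)) (H z) := cd_diff (cd_ofReal hψ.contDiffAt)
  have hc : DifferentiableAt ℝ ((fun t => (ψ t : ℂ)) ∘ H) z :=
    hψ'.comp z (hH.self_of_nhds.restrictScalars ℝ)
  have e1 : ∀ l, (fun i => dz i ((fun t => (ψ t : ℂ)) ∘ H) z) ⬝ᵥ v l = 0 := fun l => by
    have h3 := h2 _ (hv l)
    rw [BCH2.fderiv_mulVec] at h3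
    have h4 : (fun i => dz i ((fun t => (ψ t : ℂ)) ∘ H) z) =
        (fun b => dz b (fun t => (ψ t : ℂ)) (H z)) ᵥ* jr H z := by
      funext i
      rw [(BCH2.chain hH.self_of_nhds hψ' i).1]
      rfl
    rw [h4, ← Matrix.dotProduct_mulVec, h3, dotProduct_zero]
  have e2 : (fun i => dz i (fun w => ((ψ (H w) * u w : ℝ) : ℂ)) z) =
      (u z : ℂ) • (fun i => dz i ((fun t => (ψ t : ℂ)) ∘ H) z) + (ψ (H z) : ℂ) • dv1 u z := by
    funext i
    have := dz_mul (j := i) hc hu'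
    simp only [Function.comp_apply] at this
    simp only [ofReal_mul, this, Pi.add_apply, Pi.smul_apply, smul_eq_mul, dv1]
    ring
  have e3 : ∀ l, (star (v l) ⬝ᵥ fun i => dzb i (fun w => (u w : ℂ)) z) =
      star (dv1 u z ⬝ᵥ v l) := fun l => by
    simp only [dotProduct, star_sum, star_mul, dv1, star_dz_ofReal hu', Pi.star_apply]
  refine ⟨RA28.topA r G B * ∑ l, normSq (dv1 u z ⬝ᵥ v l),
    mul_nonneg T.nonneg (Finset.sum_nonneg fun l _ => normSq_nonneg _), ?_, fun h3 h4 w hw => ?_⟩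
  · rw [htr, T.dA, div_eq_iff hd]
    have e4 : ∀ l, star (v l) ⬝ᵥ (dd (fun w => (u w : ℂ))
        (fun w => ((ψ (H w) * u w : ℝ) : ℂ)) z + c • hr u z) *ᵥ v l =
        (ψ (H z) : ℂ) * (normSq (dv1 u z ⬝ᵥ v l) : ℝ) := fun l => by
      rw [Matrix.add_mulVec, h1, Matrix.smul_mulVec, Matrix.smul_mulVec, hv l, smul_zero, smul_zero,
        add_zero, dd_q, e2, e3, add_dotProduct, smul_dotProduct, smul_dotProduct, e1,
        normSq_eq_conj_mul_self]
      simp only [smul_eq_mul, star_def]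
      ring
    simp only [e4]
    rw [← Finset.mul_sum]
    push_cast
    ring
  · have h5 := (mul_eq_zero.1 h4).resolve_left (T.pos.2 h3).ne'
    rw [Finset.sum_eq_zero_iff_of_nonneg fun l _ => normSq_nonneg _] at h5
    obtain ⟨c', rfl⟩ := hsp w hw
    rw [dotProduct_sum]
    refine Finset.sum_eq_zero fun l _ => ?_
    rw [dotProduct_smul, normSq_eq_zero.1 (h5 l (Finset.mem_univ l)), smul_zero]

end BRK

theorem st_BRK : St_BRK := by
  intro n k j m N M hM G φ Q ε K' O H χ u a H₁ x₁ hS hε hT hu hQ hc h0 hX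
  have hG := hS.kae.toMet
  have hC := (mHES n M).2.2.2.1 1 φ hS.wt
  obtain ⟨-, -, hop, -, hint, -⟩ := mMU n M G hG
  let b : ContDiffBump (0 : E (k + j)) := ⟨ε / 2, ε, half_pos hε, half_lt_self hε⟩
  let ψ : E (k + j) → ℝ := fun t => b (pj t)
  have hψ : ContDiff ℝ ∞ ψ := b.contDiff.comp (TVB.pjL k j).contDiff
  let A := tA M (k + j) G (M.hw φ)
  have hA : ∀ i, DenOn M (O i) A := fun i =>
    ((st_TOP st_CH2 n 0 (k + j) M G (O i) hS.kae (hT.op i)).1 (M.hw φ)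
      ⟨fun x _ => KA.at_of_all hC.sm x, fun e he e' he' x hx hx' _ => hC.cmp e he e' he' x hx hx'⟩
      fun x _ e he hx => ⟨hC.herm e he _ (e.map_source hx), hC.cl e he _ (e.map_source hx)⟩).1
  let w : Fin m → M.X → ℂ := fun i y => ((ψ (H i y) * u y : ℝ) : ℂ)
  have hs : ∀ i, ∀ x ∈ O i, SmAt M (fun y => (u y : ℂ)) x ∧ SmAt M (w i) x := fun i x hx =>
    ⟨G55.smAt_c (hu i x hx).1, fun e he hxe => cd_ofReal
      ((hψ.contDiffAt.comp _ (BCH2.cd ((hT.q i x hx).2.1 e he hxe))).mul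
        ((hu i x hx).1 e he hxe))⟩
  have key : ∀ i, ∀ x ∈ O i, At M x fun e z => ∃ q : ℝ, 0 ≤ q ∧
      grn M G A (fun y => (u y : ℂ)) (w i) x = ((ψ (H i x) * q : ℝ) : ℂ) ∧
      ((M.hw φ e z).rank = k + j → q = 0 → ∀ v, M.hw φ e z *ᵥ v = 0 →
        dv1 (u ∘ e.symm) z ⬝ᵥ v = 0) := fun i x hx e he hxe => by
    have hz := e.map_source hxe
    obtain ⟨q, q0, q1, q2⟩ := BRK.pt (hG.pos e he _ hz)
      (by simpa using hS.psd e he _ hz) (hS.le e he _ hz) (w i x) ((hu i x hx).1 e he hxe) hψ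
      ((hT.q i x hx).2.1 e he hxe) ((hu i x hx).2 e he hxe).1 ((hu i x hx).2 e he hxe).2
    refine ⟨q, q0, ?_, q2⟩
    rw [(G55.loc hG (hT.op i) (hA i) (hs i) hx).2 e he hxe]
    simp only [Function.comp_apply, e.left_inv hxe] at q1
    exact q1
  obtain ⟨i1, i2⟩ := st_BR n k j m N M G Q _ K' O H χ (fun _ => A) (fun _ y => (u y : ℂ)) w hG hT
    hA (fun i x hx => ⟨(hs i x hx).1, (hs i x hx).2, fun h => by
      have h1 : ψ (H i x) ≠ 0 := fun h2 => h (by simp [w, h2])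
      have h2 : pj (H i x) ∈ Function.support b := h1
      rw [b.support_eq, mem_ball_zero_iff] at h2
      exact h2.le⟩)
    fun i i' x _ _ ht => ⟨fun _ _ _ => rfl, by
      obtain ⟨c, hc⟩ := ht
      simp only [w, ψ, hc.self_of_nhds, TVB.pj_tr], 0, Eventually.of_forall fun y => by simp⟩
  set f : Fin m → M.X → ℂ := fun i x => (χ i x : ℂ) * grn M G A (fun y => (u y : ℂ)) (w i) x
    with hf
  have c1 : ∀ i, Continuous (f i) := fun i => by
    refine continuous_iff_continuousAt.2 fun x => ?_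
    by_cases hx : x ∈ O i
    · exact (continuous_ofReal.comp (hT.sm i).continuous).continuousAt.mul
        (G55.loc hG (hT.op i) (hA i) (hs i) hx).1
    · refine (continuousAt_const (y := (0 : ℂ))).congr ?_
      filter_upwards [G55.off (hT.supp i) hx] with y hy
      simp only [hf, hy, ofReal_zero, zero_mul]
  have n1 : ∀ i x, 0 ≤ (f i x).re := fun i x => by
    by_cases hx : x ∈ O i
    · obtain ⟨q, q0, q1, -⟩ := KA.at_ch (key i x hx)
      simp only [hf, q1, ← ofReal_mul, ofReal_re]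
      exact mul_nonneg (hT.nn i x) (mul_nonneg b.nonneg q0)
    · simp only [hf, (G55.off (hT.supp i) hx).self_of_nhds, ofReal_zero, zero_mul, zero_re, le_refl]
  have z1 : ∀ i x, (f i x).re = 0 := fun i => by
    have h1 : ∑ i, ∫ x, (f i x).re ∂M.mu G = 0 := by
      have := congrArg re i2
      rw [re_sum, zero_re] at this
      rw [← this]
      exact Finset.sum_congr rfl fun i _ => integral_re (i1 i)
    rw [Finset.sum_eq_zero_iff_of_nonneg fun i _ => integral_nonneg (n1 i)] at h1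
    have h2 := (integral_eq_zero_iff_of_nonneg (n1 i) (i1 i).re).1 (h1 i (Finset.mem_univ i))
    exact congrFun ((continuous_re.comp (c1 i)).ae_eq_iff_eq _ continuous_zero |>.1 h2)
  obtain ⟨x1, x2, -⟩ := st_X0 n M φ (k + j) hS.wt hS.an hS.le
  have h1 : ∀ᶠ y in 𝓝 x₁, ‖pj (H₁ y)‖ < ε / 2 :=
    ((TVB.pjL k j).continuous.continuousAt.comp hc).norm.eventually
      (gt_mem_nhds (show ‖pj (H₁ x₁)‖ < ε / 2 by rw [h0, norm_zero]; exact half_pos hε))
  have h2 : ∀ i, ∀ᶠ y in 𝓝 x₁, x₁ ∈ O i ∧ Tr (H i) H₁ x₁ → y ∈ O i ∧ ψ (H i y) = 1 := fun i => by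
    by_cases h : x₁ ∈ O i ∧ Tr (H i) H₁ x₁
    · obtain ⟨c, hc⟩ := h.2
      filter_upwards [(hT.op i).mem_nhds h.1, hc, h1] with y y1 y2 y3 _
      rw [y2, TVB.pj_tr] at y3
      exact ⟨y1, b.one_of_mem_closedBall (mem_closedBall_zero_iff.2 y3.le)⟩
    · exact Eventually.of_forall fun y h' => absurd h' h
  filter_upwards [hT.all H₁ x₁ hQ (show ‖pj (H₁ x₁)‖ ≤ ε by rw [h0, norm_zero]; exact hε.le),
    eventually_all.2 h2, x1.mem_nhds hX] with y y1 y2 y3 e he hy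
  obtain ⟨i, hi, hχ⟩ := Finset.exists_ne_zero_of_sum_ne_zero (y1.trans_ne one_ne_zero)
  obtain ⟨y4, y5⟩ := y2 i (Finset.mem_filter.1 hi).2
  obtain ⟨q, -, q1, q2⟩ := key i y y4 e he hy
  refine q2 ((x2 e he _ (e.map_source hy)).1 (by rwa [e.left_inv hy])) ?_
  have h3 := z1 i y
  simp only [hf, q1, y5, one_mul, ← ofReal_mul, ofReal_re] at h3
  exact (mul_eq_zero.1 h3).resolve_left hχ

end Pool.Agent.Lib.RAF
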