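import Pool.Agent.Lib.RAF.BlueF

/-! Project ra1, step F: the first coordinates of `H` are determined to first order. -/

open scoped Classical Topology ContDiff ComplexOrder Matrix
open Set MeasureTheory Complex Metric Filter

set_option linter.unusedVariables false

noncomputable section

namespace Pool.Agent.Lib.RA

open Pool.Agent.Lib.SV (E nsq)
open Pool.Agent.Lib.HS32 Pool.Agent.Lib.PN Pool.Agent.Lib.UR.M

namespace FDT

/-- The derivative along the real line `t ↦ z + t u v`. -/
theorem line {n : ℕ} {F : Type} [NormedAddCommGroup F] [NormedSpace ℂ F] {g : E n → F}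
    {z : E n} (hg : DifferentiableAt ℂ g z) (w : E n) :
    HasDerivAt (fun t : ℝ => g (z + (t : ℂ) • w)) (fderiv ℂ g z w) 0 := by
  have h1 : HasDerivAt (fun t : ℂ => z + t • w) w 0 := by
    simpa using ((hasDerivAt_id (0 : ℂ)).smul_const w).const_add z
  have h2 : HasFDerivAt g (fderiv ℂ g z) (z + (0 : ℂ) • w) := by simpa using hg.hasFDerivAt
  have h3 : HasDerivAt (fun t : ℂ => g (z + t • w)) (fderiv ℂ g z w) ((0 : ℝ) : ℂ) :=
    h2.comp_hasDerivAt (0 : ℂ) h1
  have h4 := h3.scomp (0 : ℝ) Complex.ofRealCLM.hasDerivAt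
  simpa [Function.comp_def] using h4

theorem lognorm {a : ℝ → ℂ} (ha : HasDerivAt a 0 0) (h0 : a 0 ≠ 0) :
    HasDerivAt (fun t => Real.log (normSq (a t))) 0 0 := by
  have hre : HasDerivAt (fun t => (a t).re) 0 0 := by
    have := Complex.reCLM.hasFDerivAt.comp_hasDerivAt (0 : ℝ) ha
    rw [map_zero] at this
    exact this
  have him : HasDerivAt (fun t => (a t).im) 0 0 := by
    have := Complex.imCLM.hasFDerivAt.comp_hasDerivAt (0 : ℝ) ha
    rw [map_zero] at this
    exact this
  have hn : HasDerivAt (fun t => normSq (a t)) 0 0 := by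
    have := (hre.mul hre).add (him.mul him)
    simp only [zero_mul, mul_zero, add_zero] at this
    refine this.congr_of_eventuallyEq (Eventually.of_forall fun t => ?_)
    simp [normSq_apply]
  simpa using hn.log (by simpa using h0)

end FDT

theorem st_FDT : St_FDT := by
  intro q k j m M ι _ f O H i₀ ix e a R z v i N c β l A hE hz hH hN hA hev hv
  have hzt : z ∈ e.target := hE.sub hz
  have hzs : e.symm z ∈ e.source := e.map_target hzt
  have hez : e (e.symm z) = z := e.right_inv hzt
  have hHd : DifferentiableAt ℂ (H ∘ e.symm) z := by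
    have := hH e hE.mem hzs
    rw [hez] at this
    exact this.self_of_nhds
  have hAd : ∀ b, DifferentiableAt ℂ (A b ∘ e.symm) z := fun b => by
    have := (hA b).1 e hE.mem hzs
    rw [hez] at this
    exact this.self_of_nhds
  have key : ∀ u : ℂ, (u * fx (fderiv ℂ (H ∘ e.symm) z v) i).re = 0 := by
    intro u
    have hc : Tendsto (fun t : ℝ => z + (t : ℂ) • (u • v)) (𝓝 0) (𝓝 z) := by
      have : Continuous fun t : ℝ => z + (t : ℂ) • (u • v) := by fun_prop
      simpa using this.tendsto 0
    have h1 := ((e.continuousAt_symm hzt).tendsto.comp hc).eventually hev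
    have h2 := hc.eventually (isOpen_ball.mem_nhds hz)
    have hL : HasDerivAt (fun t : ℝ => ∑ b, l b * Real.log (normSq
        (A b (e.symm (z + (t : ℂ) • (u • v))))) + c) 0 0 := by
      have : ∀ b ∈ Finset.univ, HasDerivAt (fun t : ℝ => l b * Real.log (normSq
          (A b (e.symm (z + (t : ℂ) • (u • v)))))) 0 0 := fun b _ => by
        have h3 := FDT.line (hAd b) (u • v)
        rw [map_smul, (hA b).2.2, smul_zero] at h3
        simpa using (FDT.lognorm h3 (by simpa using (hA b).2.1)).const_mul (l b)
      simpa using (HasDerivAt.fun_sum this).add_const c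
    have hR : HasDerivAt (fun t : ℝ => N * r2 (fx (H (e.symm (z + (t : ℂ) • (u • v))))) i +
        β (sx z)) (N * (2 * (u * fx (fderiv ℂ (H ∘ e.symm) z v) i).re)) 0 := by
      have h3 := FDT.line hHd (u • v)
      rw [map_smul] at h3
      have h4 := (hasDerivAt_pi.1 h3) (Fin.castAdd j i)
      have h5 := Complex.reCLM.hasFDerivAt.comp_hasDerivAt (0 : ℝ) h4
      exact ((h5.const_mul 2).const_mul N).add_const _
    have hq : (fun t : ℝ => ∑ b, l b * Real.log (normSq
        (A b (e.symm (z + (t : ℂ) • (u • v))))) + c) =ᶠ[𝓝 0]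
        fun t : ℝ => N * r2 (fx (H (e.symm (z + (t : ℂ) • (u • v))))) i + β (sx z) := by
      filter_upwards [h1, h2] with t ht ht'
      have h6 : sx (z + (t : ℂ) • (u • v)) = sx z := by
        funext b
        have := congrFun hv b
        simp only [sx, Pi.zero_apply] at this
        simp [sx, this]
      rw [← h6, (hE.pt _ ht').2.2.2]
      exact ht
    have h7 := (hR.congr_of_eventuallyEq hq).unique hL
    rcases mul_eq_zero.1 h7 with h | h
    · exact absurd h hN
    · linarith
  have h1 := key 1
  have h2 := key I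
  apply Complex.ext
  · simpa using h1
  · simpa using h2

end Pool.Agent.Lib.RA
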