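import Pool.Agent.Lib.RAF.BlueF
import Pool.Agent.Lib.RA.B_TV

/-! Project ra1, step F: the local form of the sums. -/

open scoped Topology
open Set Metric Filter Complex

noncomputable section

namespace Pool.Agent.Lib.RA

open Pool.Agent.Lib.SV (E)
open Pool.Agent.Lib.HS32

namespace FLOC

variable {q j : ℕ}

theorem app_self (z : E (q + j)) : Fin.append (fx z) (sx z) = z :=
  TVB.ext2 (fun i => by simp [fx]) fun l => by simp [sx]

theorem sx_app (c : E q) (s : E j) : sx (Fin.append c s : E (q + j)) = s :=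
  funext fun l => by simp [sx]

theorem sx_pj (t : E (q + j)) : sx (pj t) = sx t := funext fun l => by simp [sx]

theorem app_cont (c : E q) : Continuous fun w : E (q + j) => (Fin.append c (sx w) : E (q + j)) :=
  continuous_pi fun i => Fin.addCases (fun i => by simpa using continuous_const)
    (fun l => by simpa [sx] using continuous_apply _) i

end FLOC

open FLOC in
theorem st_FLOC (FHM : St_FHM) (FREL : St_FREL) : St_FLOC := by
  intro q k j M _ ι _ f φ ρ b Φ δ O H ψ δ' c₁ i₀ ix e a R u S z hP hE hz hS hS' hb hC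
  have hQ := (FHM _ M).1
  obtain ⟨r1, r2', r3, r4⟩ := FREL k M.X ρ
  have zt := hE.sub hz
  have xs := e.map_target zt
  have ex : e (e.symm z) = z := e.right_inv zt
  have c1 : Tendsto e (𝓝 (e.symm z)) (𝓝 z) := by
    simpa only [ContinuousAt, ex] using e.continuousAt xs
  have c2 : Tendsto (fun x => (Fin.append (fx z) (sx (e x)) : E (q + j))) (𝓝 (e.symm z))
      (𝓝 z) := by
    simpa only [app_self, Function.comp_def] using ((app_cont (fx z)).tendsto z).comp c1
  have c3 : Tendsto (yy M e z) (𝓝 (e.symm z)) (𝓝 (e.symm z)) :=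
    (e.continuousAt_symm zt).tendsto.comp c2
  have p0 : yy M e z (e.symm z) = e.symm z := by rw [yy, ex, app_self]
  obtain ⟨N, y, hy⟩ := hS'
  have hN : (Sel (HM M) S (TR M ρ u) (e.symm z)).ncard = N := by
    simpa using hy.ncard.self_of_nhds
  have rel : ∀ x w, w ∈ Sel (HM M) S (TR M ρ u) x → Rel ρ x w (xi ρ x w) := by
    rintro x w ⟨s, -, rfl, h⟩
    obtain ⟨ξ, h⟩ := h.ex.self_of_nhds
    exact r2' _ _ _ h
  have sc : ∀ l, Sct (HM M) S (e.symm z) (y l) := fun l =>
    (hy.sct l).mono (.of_forall sel_subset)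
  have yc : ∀ l, ContinuousAt (y l) (e.symm z) := fun l => (hy.q l).1
  have bas : ∀ l, ∀ᶠ x in 𝓝 (e.symm z), y l (yy M e z x) = y l x := by
    intro l
    have h1 : ContinuousAt (fun x => y l (yy M e z x)) (e.symm z) := by
      rw [ContinuousAt, p0]
      exact (yc l).tendsto.comp c3
    refine hS.unique hQ (hS.sct_of_continuousAt hQ h1 ?_) (sc l) (by rw [p0])
    filter_upwards [hb, c3.eventually (sc l).2] with x h2 h3
    rwa [h2]
  have cv : ∀ l, ∀ᶠ x in 𝓝 (e.symm z), Cv ρ b (y l x) := fun l =>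
    (yc l).eventually (r3 b _ (hC _ (sc l).mem)).1
  let p : E j → M.X := fun s => e.symm (Fin.append (fx z) s)
  refine ⟨fun i s => ∑ l, (xi ρ (p s) (y l (p s)) i - r2 (fx (H (p s))) i),
    fun t => ∑ l, (u (y l (p (sx t))) - ρ (xi ρ (p (sx t)) (y l (p (sx t)))) (y l (p (sx t))) +
      ψ (H (p (sx t)))) - N * ψ t, ?_⟩
  filter_upwards [eventually_all.2 bas, eventually_all.2 cv,
    c3.eventually (eventually_all.2 fun l => (hy.sct l).2),
    eventually_all.2 fun i => hy.sum fun x w => xi ρ x w i,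
    hy.sum fun x w => u w - ρ (xi ρ x w) w - u x, e.open_source.mem_nhds xs,
    c1.eventually (isOpen_ball.mem_nhds hz), c2.eventually (isOpen_ball.mem_nhds hz)]
    with x h1 h2 h3 h4 h5 h6 h7 h8
  obtain ⟨o1, -, -, s1⟩ := hE.pt _ h7
  obtain ⟨o2, -, -, s2⟩ := hE.pt _ h8
  rw [e.left_inv h6] at o1 s1
  rw [sx_app] at s2
  have ep : p (sx (H x)) = yy M e z x := by rw [← s1]; rfl
  obtain ⟨t1, t2⟩ := r4 j ψ x (yy M e z x) (H x) (H (yy M e z x)) hP.inv
    (hP.box _ o1).fam.self_of_nhds (hP.box _ o2).fam.self_of_nhds (s1.symm.trans s2)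
  have key : ∀ l, xi ρ x (y l x) = xi ρ (yy M e z x) (y l (yy M e z x)) +
      (r2 (fx (H x)) - r2 (fx (H (yy M e z x)))) := fun l => by
    refine (r3 b _ (h2 l)).2 x _ ?_
    have := r1 _ _ _ _ _ t1 (rel _ _ (h3 l))
    rwa [h1 l] at this ⊢
  have ep' : ψ (pj (H x)) = ψ (H x) := by
    conv_rhs => rw [TVB.split (H x), hP.inv]
  rw [hN]
  refine ⟨fun i => ?_, ?_⟩
  · rw [gx, h4 i, ep]
    simp only [key, Pi.add_apply, Pi.sub_apply, Finset.sum_add_distrib, Finset.sum_sub_distrib,
      Finset.sum_const, Finset.card_univ, Fintype.card_fin, nsmul_eq_mul]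
    ring
  · have h9 : ∀ l, u (y l x) - ρ (xi ρ x (y l x)) (y l x) - u x =
        u (y l (yy M e z x)) - ρ (xi ρ (yy M e z x) (y l (yy M e z x))) (y l (yy M e z x)) +
          ψ (H (yy M e z x)) - (ψ (H x) + u x) := fun l => by
      have := rel _ _ (h3 l) (r2 (fx (H x)) - r2 (fx (H (yy M e z x))))
      rw [t2, ← key l, h1 l] at this
      rw [h1 l]
      linarith
    rw [g0, h5, sx_pj, ep, ep']
    simp only [h9, Finset.sum_sub_distrib (s := Finset.univ)
      (g := fun _ : Fin N => ψ (H x) + u x), Finset.sum_const, Finset.card_univ, Fintype.card_fin,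
      nsmul_eq_mul]
    ring

end Pool.Agent.Lib.RA
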