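import Pool.Agent.Lib.RAF.BlueF
import Pool.Agent.Lib.RA.K_At

/-! Project ra1, step F: the relation holds in the box. -/

open scoped Classical Topology ContDiff ComplexOrder Matrix
open Set MeasureTheory Complex Metric Filter

set_option linter.unusedVariables false

noncomputable section

namespace Pool.Agent.Lib.RA

open Pool.Agent.Lib.SV (E nsq)
open Pool.Agent.Lib.HS32

namespace FRBX

variable {q j : ℕ}

theorem sx_app (a : E q) (b : E j) : sx (Fin.append a b : E (q + j)) = b := by
  funext l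
  simp [sx]

theorem app_mem {a c w : E (q + j)} {R : ℝ} (hc : c ∈ ball a R) (hw : w ∈ ball a R) :
    (Fin.append (fx c) (sx w) : E (q + j)) ∈ ball a R := by
  have h0 : 0 < R := pos_of_mem_ball hc
  rw [mem_ball, dist_pi_lt_iff h0] at hc hw ⊢
  intro i
  refine Fin.addCases (fun i => ?_) (fun i => ?_) i
  · rw [Fin.append_left]
    exact hc _
  · rw [Fin.append_right]
    exact hw _

theorem app_diff (c : E (q + j)) :
    Differentiable ℂ fun w : E (q + j) => (Fin.append (fx c) (sx w) : E (q + j)) := by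
  refine differentiable_pi.2 fun i => ?_
  refine Fin.addCases (fun i => ?_) (fun i => ?_) i
  · simp only [Fin.append_left]
    exact differentiable_const _
  · simp only [Fin.append_right, sx]
    exact differentiable_apply _

end FRBX

open FRBX in
theorem st_FRBX (hM : St_FHM) (hR : St_FREL) : St_FRBX := by
  intro q k j M ι _ f φ ρ b Φ δ O H ψ δ' c₁ i₀ ix e a R u c z hP hE hc hz
  have he := hE.mem
  have hzt : z ∈ e.target := hE.sub hz
  have yv : ∀ w ∈ ball a R, yy M e c (e.symm w) = e.symm (Fin.append (fx c) (sx w)) :=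
    fun w hw => by rw [yy, e.right_inv (hE.sub hw)]
  have hA := app_mem hc hz
  have hAt := hE.sub hA
  have hm : HM M (e.symm z) (yy M e c) := by
    refine ⟨?_, fun e' he' hy => KA.holAt_of' he hzt ?_⟩
    · refine ContinuousAt.comp (g := e.symm)
        (f := fun x => (Fin.append (fx c) (sx (e x)) : E (q + j))) ?_ ?_
      · rw [e.right_inv hzt]
        exact e.continuousAt_symm hAt
      · exact (app_diff c).continuous.continuousAt.comp (e.continuousAt (e.map_target hzt))
    · rw [yv z hz] at hy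
      have h1 := KA.hol_tr he' he hy (e.map_target hAt)
      rw [e.right_inv hAt] at h1
      refine KA.holN_congr (KA.holN_comp (K := e' ∘ e.symm)
        (H := fun w : E (q + j) => (Fin.append (fx c) (sx w) : E (q + j))) h1
        (Eventually.of_forall fun w => app_diff c w)) ?_
      filter_upwards [isOpen_ball.mem_nhds hz] with w hw
      simp only [Function.comp, yv w hw]
  refine ⟨hm, fun hcv hu hu' => ?_⟩
  obtain ⟨-, m2, -, m4, -, m6, m7⟩ := hM (q + j) M
  obtain ⟨-, -, r3, r4⟩ := hR k M.X ρ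
  have key : ∀ᶠ x' in 𝓝 (e.symm z),
      Rel ρ x' (yy M e c x') (r2 (fx (H x')) - r2 (fx (H (yy M e c x')))) ∧
      xi ρ x' (yy M e c x') = r2 (fx (H x')) - r2 (fx (H (yy M e c x'))) ∧
      ρ (xi ρ x' (yy M e c x')) (yy M e c x') = ψ (H x') - ψ (H (yy M e c x')) := by
    filter_upwards [hm.1.eventually (r3 b _ hcv).1, (KA.ev_iff' (p := fun x' =>
      Rel ρ x' (yy M e c x') (r2 (fx (H x')) - r2 (fx (H (yy M e c x')))) ∧
      ρ (r2 (fx (H x')) - r2 (fx (H (yy M e c x')))) (yy M e c x') =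
        ψ (H x') - ψ (H (yy M e c x'))) hzt).2 (by
      filter_upwards [isOpen_ball.mem_nhds hz] with w hw
      rw [yv w hw]
      have p1 := hE.pt w hw
      have p2 := hE.pt _ (app_mem hc hw)
      exact r4 j ψ _ _ _ _ hP.inv (hP.box _ p1.1).fam.self_of_nhds
        (hP.box _ p2.1).fam.self_of_nhds (by rw [← p1.2.2.2, ← p2.2.2.2, sx_app]))] with x' h1 h2
    have h3 := (r3 b _ h1).2 _ _ h2.1
    exact ⟨h2.1, h3, h3 ▸ h2.2⟩
  have pot : ∀ w ∈ ball a R, NPot M φ u (e.symm w) →
      PhAt M (fun x' => u x' + (ψ ∘ H) x') (e.symm w) := by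
    intro w hw hn
    refine m7 _ u (ψ ∘ H) (M.hw φ) ?_
    filter_upwards [hn, (KA.ev_iff' (p := fun x' => x' ∈ O) (hE.sub hw)).2 (by
      filter_upwards [isOpen_ball.mem_nhds hw] with w' hw' using (hE.pt w' hw').1)] with x' h1 h2
    have ad := hP.box _ h2
    exact ⟨KA.smAt_of_an h1.1, KA.smAt_comp (hP.an _ ad.val).contDiffAt
      (KA.smAt_of_an (KA.anAt_of_hol ad.iso.1)), h1.2, ad.iso.2.self_of_nhds⟩
  have coo : ∀ i, ∀ w ∈ ball a R, PhAt M (fun x' => r2 (fx (H x')) i) (e.symm w) := by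
    intro i w hw
    have h1 : HolAt M ((fun t : E (k + j) => t (Fin.castAdd j i)) ∘ H) (e.symm w) :=
      KA.holAt_comp (Eventually.of_forall fun t => differentiableAt_apply _ t)
        (hP.box _ (hE.pt w hw).1).iso.1
    exact ((m4 _ _).1 (m6 _ _ h1)).2.2.2.1 2
  have pull : ∀ g, PhAt M g (e.symm (Fin.append (fx c) (sx z))) →
      PhAt M (fun x' => g (yy M e c x')) (e.symm z) :=
    fun g hg => (m2 _ _ hm).2.2.1 g (by rwa [yv z hz])
  refine ⟨key.mono fun x' h => ⟨_, h.1⟩, fun i => ?_, ?_⟩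
  · have h1 := (((m4 _ _).1 (coo i z hz)).2.2.2.2 _ (pull _ (coo i _ hA))).2
    refine ((m4 _ _).1 h1).2.2.1 _ (key.mono fun x' h => ?_)
    simp only [h.2.1, Pi.sub_apply]
  · rw [yv z hz] at hu'
    have h1 := (((m4 _ _).1 (pull _ (pot _ hA hu'))).2.2.2.2 _ (pot z hz hu)).2
    refine ((m4 _ _).1 h1).2.2.1 _ (key.mono fun x' h => ?_)
    simp only [h.2.2, Function.comp]
    ring

end Pool.Agent.Lib.RA
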