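import Pool.Agent.Lib.RAF.BlueF
import Pool.Agent.Lib.RA.T_SARD
import Pool.Agent.Lib.RA.K_At

/-! Project ra1, step F: the relation is closed. -/

open scoped Classical Topology ContDiff Matrix
open Set Complex Filter Metric

set_option linter.unusedVariables false
set_option linter.unusedSectionVars false

noncomputable section

namespace Pool.Agent.Lib.RA

open Pool.Agent.Lib.SV (E)
open Pool.Agent.Lib.HS32

namespace FRCL57

variable {V : Type} [NormedAddCommGroup V] [NormedSpace ℝ V] [CompleteSpace V] {k : ℕ}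
  {A B : (Fin k → ℝ) × V → ℝ} {z : V}

/-- The translation relation for two families of functions. -/
def RL (A B : (Fin k → ℝ) × V → ℝ) (w : V) (ξ : Fin k → ℝ) : Prop :=
  ∀ ζ, A (ζ, w) = B (ξ + ζ, w) - B (ξ, w)

/-- The derivative in the first variable. -/
def D1 (A : (Fin k → ℝ) × V → ℝ) (p : (Fin k → ℝ) × V) : (Fin k → ℝ) →L[ℝ] ℝ :=
  (fderiv ℝ A p).comp (ContinuousLinearMap.inl ℝ _ _)

theorem has_D1 {ξ : Fin k → ℝ} (h : AnalyticAt ℝ A (ξ, z)) :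
    HasFDerivAt (fun ζ => A (ζ, z)) (D1 A (ξ, z)) ξ :=
  h.differentiableAt.hasFDerivAt.comp ξ (hasFDerivAt_prodMk_left ξ z)

theorem cd_D1 {p : (Fin k → ℝ) × V} (h : AnalyticAt ℝ A p) : ContDiffAt ℝ ω (D1 A) p :=
  h.fderiv.contDiffAt.clm_comp contDiffAt_const

theorem D1_rel {ξ ζ : Fin k → ℝ} (hA : AnalyticAt ℝ A (ζ, z)) (hB : AnalyticAt ℝ B (ξ + ζ, z))
    (h : RL A B z ξ) : D1 B (ξ + ζ, z) - D1 A (ζ, z) = 0 := by
  have a1 : HasFDerivAt (fun ζ => B (ξ + ζ, z) - B (ξ, z)) (D1 B (ξ + ζ, z)) ζ := by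
    simpa using (((has_D1 hB).comp ζ ((hasFDerivAt_id ζ).const_add ξ)).sub_const (B (ξ, z)))
  rw [show (fun ζ => B (ξ + ζ, z) - B (ξ, z)) = fun ζ => A (ζ, z) from
    funext fun ζ => (h ζ).symm] at a1
  rw [a1.unique (has_D1 hA), sub_self]

theorem not_rel {ξ : Fin k → ℝ} (hA : ∀ ξ, AnalyticAt ℝ A (ξ, z)) (hB : ∀ ξ, AnalyticAt ℝ B (ξ, z))
    (h : ¬RL A B z ξ) : ∀ᶠ p : V × (Fin k → ℝ) in 𝓝 (z, ξ), ¬RL A B p.1 p.2 := by
  obtain ⟨ζ, hζ⟩ := not_forall.1 h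
  have a1 : ContinuousAt (fun p : V × (Fin k → ℝ) => A (ζ, p.1)) (z, ξ) :=
    (hA ζ).continuousAt.comp (f := fun p : V × (Fin k → ℝ) => (ζ, p.1)) (by fun_prop)
  have a2 (η : Fin k → ℝ) : ContinuousAt (fun p : V × (Fin k → ℝ) => B (p.2 + η, p.1)) (z, ξ) :=
    (hB (ξ + η)).continuousAt.comp (f := fun p : V × (Fin k → ℝ) => (p.2 + η, p.1)) (by fun_prop)
  have a3 := a2 0
  simp only [add_zero] at a3
  filter_upwards [(a1.sub ((a2 ζ).sub a3)).eventually_ne (sub_ne_zero.2 hζ)] with p hp hr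
  exact hp (sub_eq_zero.2 (hr ζ))

/-- The dot product as a linear form. -/
def dp (b : Fin k → ℝ) : (Fin k → ℝ) →L[ℝ] ℝ := ∑ i, b i • ContinuousLinearMap.proj i

theorem dp_apply (b ξ : Fin k → ℝ) : dp b ξ = b ⬝ᵥ ξ := by simp [dp, dotProduct]

theorem core {b : Fin k → ℝ} {c C c' C' : ℝ} (hc : 0 < c) (hc' : 0 < c')
    (hA : ∀ᶠ w in 𝓝 z, ∀ ξ, AnalyticAt ℝ A (ξ, w)) (hB : ∀ᶠ w in 𝓝 z, ∀ ξ, AnalyticAt ℝ B (ξ, w))
    (B0 : ∀ w, B (0, w) = 0) (cA : ∀ᶠ w in 𝓝 z, ∀ ξ, c * ‖ξ‖ - C ≤ A (ξ, w) - b ⬝ᵥ ξ)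
    (cB : ∀ᶠ w in 𝓝 z, ∀ ξ, c' * ‖ξ‖ - C' ≤ B (ξ, w) - b ⬝ᵥ ξ)
    (hf : ∃ᶠ w in 𝓝 z, ∀ᶠ w' in 𝓝 w, ∃ ξ, RL A B w' ξ) :
    ∃ Ξ : V → Fin k → ℝ, AnalyticAt ℝ Ξ z ∧
      ∀ᶠ w in 𝓝 z, RL A B w (Ξ w) ∧ ∀ ξ, RL A B w ξ → Ξ w = ξ := by
  have hA0 := hA.self_of_nhds
  have hB0 := hB.self_of_nhds
  have hK := isCompact_closedBall (0 : Fin k → ℝ) ((C + C') / (c + c'))
  have bd : ∀ᶠ w in 𝓝 z, ∀ ξ, RL A B w ξ → ξ ∈ closedBall (0 : Fin k → ℝ) ((C + C') / (c + c')) := by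
    filter_upwards [cA, cB] with w h1 h2 ξ hr
    have a1 := h1 (-ξ)
    have a2 := h2 ξ
    rw [hr, add_neg_cancel, B0, norm_neg, dotProduct_neg] at a1
    rw [mem_closedBall_zero_iff, le_div_iff₀ (by positivity)]
    linarith
  obtain ⟨ξ₀, h0⟩ : ∃ ξ, RL A B z ξ := by
    by_contra hn
    have := hK.eventually_forall_of_forall_eventually (P := fun w ξ => ¬RL A B w ξ) (x₀ := z)
      fun ξ _ => not_rel hA0 hB0 fun h => hn ⟨ξ, h⟩
    obtain ⟨w, h1, h2, h3⟩ := (hf.and_eventually (this.and bd)).exists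
    obtain ⟨ξ, hξ⟩ := h1.self_of_nhds
    exact h2 ξ (h3 ξ hξ) hξ
  have cB0 : ∀ ξ, c' * ‖ξ‖ - C' ≤ B (ξ, z) - dp b ξ := fun ξ => by
    rw [dp_apply]; exact cB.self_of_nhds ξ
  have un (ξ : Fin k → ℝ) (h : RL A B z ξ) : ξ = ξ₀ := by
    refine sub_eq_zero.1 (st_UNIQ _ (fun a => B (a, z)) (dp b) c' C' (B (ξ, z) - B (ξ₀, z)) _ hc'
      cB0 fun a => ?_)
    have a1 := h0 (a - ξ₀)
    have a2 := h (a - ξ₀)
    rw [add_sub_cancel] at a1
    rw [show a + (ξ - ξ₀) = ξ + (a - ξ₀) by abel]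
    linarith
  have hg : ContDiff ℝ 2 fun a => B (a, z) := contDiff_iff_contDiffAt.2 fun a =>
    ((hB0 a).comp (f := fun a => (a, z)) (analyticAt_id.prod analyticAt_const)).contDiffAt
  obtain ⟨η, -, -, hη⟩ := st_SARD k _ (dp b) c' C' hc' hg cB0
  obtain ⟨ζ, rfl⟩ : ∃ ζ, η = ξ₀ + ζ := ⟨η - ξ₀, by abel⟩
  set G : V × (Fin k → ℝ) → (Fin k → ℝ) →L[ℝ] ℝ :=
    fun p => D1 B (p.2 + ζ, p.1) - D1 A (ζ, p.1) with hG
  have cG : ContDiffAt ℝ ω G (z, ξ₀) :=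
    ((cd_D1 (hB0 (ξ₀ + ζ))).comp (f := fun p : V × (Fin k → ℝ) => (p.2 + ζ, p.1)) (z, ξ₀)
      (by fun_prop)).sub
      ((cd_D1 (hA0 ζ)).comp (f := fun p : V × (Fin k → ℝ) => (ζ, p.1)) (z, ξ₀) (by fun_prop))
  have iG : (fderiv ℝ G (z, ξ₀) ∘L .inr ℝ V (Fin k → ℝ)).IsInvertible := by
    have a1 : HasFDerivAt (fun ξ => G (z, ξ)) (fderiv ℝ G (z, ξ₀) ∘L .inr ℝ V (Fin k → ℝ)) ξ₀ :=
      (cG.differentiableAt (by simp)).hasFDerivAt.comp ξ₀ (hasFDerivAt_prodMk_right z ξ₀)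
    have a2 : (fun ξ => G (z, ξ)) = fun ξ => fderiv ℝ (fun a => B (a, z)) (ξ + ζ) - D1 A (ζ, z) :=
      funext fun ξ => by rw [(has_D1 (hB0 (ξ + ζ))).fderiv]
    have a3 : Differentiable ℝ (fderiv ℝ fun a => B (a, z)) :=
      (hg.fderiv_right (m := 1) (by norm_num)).differentiable (by norm_num)
    have a4 := (((a3 (ξ₀ + ζ)).hasFDerivAt.comp ξ₀ ((hasFDerivAt_id ξ₀).add_const ζ)).sub_const
      (D1 A (ζ, z)))
    rw [a2] at a1
    rw [a1.unique a4]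
    simpa using hη
  have n0 : (ω : ℕ∞ω) ≠ 0 := by simp
  have hΞ : AnalyticAt ℝ (cG.implicitFunction n0 iG) z :=
    (cG.contDiffAt_implicitFunction n0 iG).analyticAt
  have hE := cG.eventually_apply_eq_iff_implicitFunction n0 iG
  generalize cG.implicitFunction n0 iG = Ξ at hΞ hE
  have u1 : ∀ᶠ w in 𝓝 z, ∀ ξ, RL A B w ξ → Ξ w = ξ := by
    have := hK.eventually_forall_of_forall_eventually (P := fun w ξ => RL A B w ξ → Ξ w = ξ)
      (x₀ := z) fun ξ _ => by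
        by_cases h : RL A B z ξ
        · rw [un ξ h]
          filter_upwards [hE, (continuousAt_fst (p := (z, ξ₀))).eventually (hA.and hB)]
            with p h1 h2 hr
          exact h1.1 ((D1_rel (h2.1 _) (h2.2 _) hr).trans (D1_rel (hA0 _) (hB0 _) h0).symm)
        · exact (not_rel hA0 hB0 h).mono fun p hp hr => absurd hr hp
    filter_upwards [this, bd] with w h1 h2 ξ hr using h1 ξ (h2 ξ hr) hr
  refine ⟨Ξ, hΞ, Eventually.and ?_ u1⟩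
  obtain ⟨r, hr, hb⟩ := Metric.eventually_nhds_iff_ball.1
    (hΞ.eventually_analyticAt.and (hA.and hB))
  obtain ⟨w₀, h1, h2, h3⟩ :=
    (hf.and_eventually (u1.eventually_nhds.and (ball_mem_nhds z hr))).exists
  filter_upwards [ball_mem_nhds z hr] with w hw a
  have an (a : Fin k → ℝ) : AnalyticOnNhd ℝ (fun w => B (Ξ w + a, w)) (ball z r) := fun w hw =>
    ((hb w hw).2.2 (Ξ w + a)).comp (f := fun w => (Ξ w + a, w))
      (((hb w hw).1.add analyticAt_const).prod analyticAt_id)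
  have an0 := an 0
  simp only [add_zero] at an0
  refine AnalyticOnNhd.eqOn_of_preconnected_of_eventuallyEq (f := fun w => A (a, w))
    (g := fun w => B (Ξ w + a, w) - B (Ξ w, w)) (fun w hw => ((hb w hw).2.1 a).comp
      (f := fun w => (a, w)) (analyticAt_const.prod analyticAt_id)) ((an a).sub an0)
    (convex_ball z r).isPreconnected h3 ?_ hw
  filter_upwards [h1, h2] with w' ⟨ξ, hξ⟩ h4
  rw [h4 ξ hξ]
  exact hξ a

end FRCL57

open FRCL57 KA in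
theorem st_FRCL (hHM : St_FHM) : St_FRCL := by
  intro n k M ρ b u x y hJ h0 hy ⟨c, C, hc, cA⟩ ⟨c', C', hc', cB⟩ hu hu' hf
  obtain ⟨-, hC, -, hP, -⟩ := hHM n M
  have he := Mf.ch_mem (M := M) x
  have hx := Mf.mem_ch (M := M) x
  have he' := Mf.ch_mem (M := M) (y x)
  have hx' := Mf.mem_ch (M := M) (y x)
  generalize M.ch x = e at he hx
  generalize M.ch (y x) = e' at he' hx'
  have ht := e.open_target.mem_nhds (e.map_source hx)
  obtain ⟨Ξ, hΞ, hR⟩ := core (A := fun p => ρ p.1 (e.symm p.2)) (B := fun p => ρ p.1 (y (e.symm p.2)))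
    (z := e x) (b := b) hc hc' (by
      filter_upwards [ht] with w hw ξ using at_tgt he hw (hJ ξ _)) (by
      have a1 : ∀ᶠ w in 𝓝 (e x), y (e.symm w) ∈ e'.source :=
        (ev_iff hx).1 (hy.1.eventually (e'.open_source.mem_nhds hx'))
      filter_upwards [a1.eventually_nhds, (an_of_hol (hy.2 e' he' hx' e he hx)).eventually_analyticAt]
        with w h1 h2 ξ
      have a2 := (hJ ξ _ e' he' h1.self_of_nhds).comp
        (f := fun p : (Fin k → ℝ) × E n => (p.1, ((e' ∘ y) ∘ e.symm) p.2)) (x := (ξ, w))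
        (analyticAt_fst.prod (AnalyticAt.comp (g := (e' ∘ y) ∘ e.symm)
          (f := fun p : (Fin k → ℝ) × E n => p.2) h2 analyticAt_snd))
      refine a2.congr ?_
      filter_upwards [(continuousAt_snd (p := (ξ, w))).eventually h1] with p hp
      simp only [Function.comp, e'.left_inv hp])
    (fun w => h0 _) ((ev_iff hx).1 cA) ((ev_iff hx).1 (hy.1.eventually cB)) (by
      intro hn
      refine hf ((ev_iff hx).2 ?_)
      filter_upwards [hn, ht] with w h1 h2 h3 using h1 ((ev_iff' h2).1 h3.ex))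
  have ex : ∀ᶠ x' in 𝓝 x, ∃ ξ, Rel ρ x' (y x') ξ :=
    (ev_iff hx).2 (hR.mono fun w hw => ⟨Ξ w, hw.1⟩)
  have an : AnAt M (fun x' => xi ρ x' (y x')) x := by
    refine anAt_of he hx (hΞ.congr (hR.mono fun w hw => hw.2 _ ?_))
    have a1 : ∃ ξ, Rel ρ (e.symm w) (y (e.symm w)) ξ := ⟨Ξ w, hw.1⟩
    simp only [Function.comp, xi, dif_pos a1]
    exact a1.choose_spec
  refine ⟨ex, fun i => (hP x _).2 ?_ (hf.mono fun x' h => h.ph i),
    (hP x _).2 ?_ (hf.mono fun x' h => h.p0)⟩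
  · exact anAt_comp (K := fun v : Fin k → ℝ => v i)
      ((ContinuousLinearMap.proj (R := ℝ) (φ := fun _ : Fin k => ℝ) i).analyticAt _) an
  · have a1 := ((hC x y hy).2.1 ℝ u).1 hu'
    have a2 := (hC x y hy).2.2.2 k ρ _ (hJ _ _) an
    exact fun e₁ h1 h2 => ((a1 e₁ h1 h2).sub (a2 e₁ h1 h2)).sub (hu e₁ h1 h2)

end Pool.Agent.Lib.RA
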