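import Pool.Agent.Lib.RAF.BlueF
import Pool.Agent.Lib.RA.K_At
import Pool.Agent.Lib.RA.T_KER

/-! Step F: selection of independent functions. -/

open scoped Classical Topology ContDiff ComplexOrder Matrix
open Set Complex Metric Filter

set_option linter.unusedVariables false

noncomputable section

namespace Pool.Agent.Lib.RA

open Pool.Agent.Lib.SV (E)
open Pool.Agent.Lib.HS32

namespace FSEL

lemma pick {n r : ℕ} {κ : Type} (g : κ → E n) (S : E n →ₗ[ℂ] E r) (hS : Function.Surjective S)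
    (h : ∀ v, (∀ a, g a ⬝ᵥ v = 0) → S v = 0) :
    ∃ ix : Fin r → κ, ∀ t : E r, ∃ v, ∀ i, g (ix i) ⬝ᵥ v = t i := by
  rcases r with _ | r
  · exact ⟨Fin.elim0, fun t => ⟨0, fun i => i.elim0⟩⟩
  have h1 : ¬ Module.finrank ℂ (Submodule.span ℂ (range g)) ≤ r := by
    rw [R21.span_le_iff]
    rintro ⟨K, hK, hK'⟩
    have h2 : Module.finrank ℂ K ≤ Module.finrank ℂ (LinearMap.ker S) :=
      Submodule.finrank_mono fun v hv => h v (hK' v hv)
    have h3 := LinearMap.finrank_range_add_finrank_ker S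
    rw [LinearMap.range_eq_top.2 hS, finrank_top, Module.finrank_fin_fun,
      Module.finrank_fin_fun] at h3
    omega
  rw [R21.span_le_iff_det] at h1
  push Not at h1
  obtain ⟨σ, P, hd⟩ := h1
  refine ⟨σ, fun t => ⟨P *ᵥ (((Matrix.of fun k => g (σ k)) * P)⁻¹ *ᵥ t), fun i => ?_⟩⟩
  have : (Matrix.of fun k => g (σ k)) *ᵥ (P *ᵥ (((Matrix.of fun k => g (σ k)) * P)⁻¹ *ᵥ t))
      = t := by
    rw [Matrix.mulVec_mulVec, Matrix.mulVec_mulVec,
      Matrix.mul_nonsing_inv _ (isUnit_iff_ne_zero.2 hd), Matrix.one_mulVec]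
  exact congrFun this i

end FSEL

theorem st_FSEL : St_FSEL := by
  intro n r M κ A H x e he hx hA hH h
  obtain ⟨ix, hix⟩ := FSEL.pick (fun a j => fderiv ℂ (A a ∘ e.symm) (e x) (Pi.single j 1))
    (fderiv ℂ (H ∘ e.symm) (e x)).toLinearMap (hH e he hx)
    fun v hv => h v fun a => (PK.clm_apply _ v).trans (hv a)
  have hd : ∀ i, HolN (A (ix i) ∘ e.symm) (e x) := fun i => hA (ix i) e he hx
  have hh : HolN ((fun y i => A (ix i) y) ∘ e.symm) (e x) :=
    (eventually_all.2 hd).mono fun w hw => differentiableAt_pi.2 hw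
  refine ⟨ix, KA.subm_of (KA.holAt_of he hx hh) he hx fun t => ?_⟩
  obtain ⟨v, hv⟩ := hix t
  refine ⟨v, funext fun i => ?_⟩
  have := fderiv_pi (𝕜 := ℂ) (φ := fun i => A (ix i) ∘ e.symm) (x := e x)
    fun i => (hd i).self_of_nhds
  rw [← hv i, ← PK.clm_apply]
  exact congrFun (congrFun (congrArg DFunLike.coe this) v) i

end Pool.Agent.Lib.RA
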