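import Pool.Agent.Lib.RAF.BlueS

/-! Project ra1: pluriharmonic functions of logarithmic growth, the assembly. -/

open scoped Classical Topology ContDiff ComplexOrder Matrix
open Set MeasureTheory Complex Metric Filter

set_option linter.unusedVariables false

noncomputable section

namespace Pool.Agent.Lib.RAF

open Pool.Agent.Lib.SV (E nsq)
open Pool.Agent.Lib.HS32 Pool.Agent.Lib.RA

namespace FSTB

variable {n : ℕ} {M : Mf n}

/-- Twice the real part of a holomorphic function is pluriharmonic. -/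
theorem ph_re {D : M.X → ℂ} {u : M.X → ℝ} {x : M.X} (h : HolAt M D x)
    (hu : ∀ᶠ y in 𝓝 x, u y = 2 * (D y).re) : SmAt M u x ∧ EqAt M (M.hs u) 0 x := by
  have h1 : ∀ e ∈ M.C, x ∈ e.source → ContDiffAt ℝ ∞ (D ∘ e.symm) (e x) := fun e he hx =>
    (KA.an_of_hol (h e he hx)).contDiffAt
  refine ⟨KA.smAt_congr (f := fun y => 2 * (D y).re) (fun e he hx =>
    contDiffAt_const.mul (reCLM.contDiff.contDiffAt.comp _ (h1 e he hx))) hu, fun e he hx => ?_⟩
  refine (KA.hs_congr hu e he hx).trans ((H1OB.hess_re (h1 e he hx)).trans ?_)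
  rw [((mHOL n _ _).2.2 (h e he hx)).2.2.1]
  simp

theorem dv_mono {O O' : Set M.X} {δ : M.X → ℂ} (h : Dv M O δ) (ho : IsOpen O') (hs : O' ⊆ O) :
    Dv M O' δ :=
  ⟨ho, fun y hy => h.hol y (hs hy), fun y hy => h.ne y (hs hy), fun y hy => h.le y (hs hy)⟩

theorem mer_of {f : M.X → ℂ} (h : ∀ x, ∃ (O : Set M.X) (δ a b : M.X → ℂ), x ∈ O ∧ Dv M O δ ∧
    (∀ y ∈ O, HolAt M a y ∧ HolAt M b y) ∧ ∀ y ∈ O, δ y ≠ 0 → b y ≠ 0 ∧ f y = a y / b y) :
    Mer M f := fun x => by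
  obtain ⟨O, δ, a, b, hx, hd, hh, he⟩ := h x
  set C : ℝ := ‖b x‖ + 1 with hC
  have hC0 : 0 < C := by positivity
  have hC1 : (C : ℂ) ≠ 0 := ofReal_ne_zero.2 hC0.ne'
  have ho : IsOpen (O ∩ b ⁻¹' ball 0 C) :=
    ContinuousOn.isOpen_inter_preimage (fun y hy => (hh y hy).2.cont.continuousWithinAt) hd.op
      isOpen_ball
  refine ⟨O ∩ b ⁻¹' ball 0 C, fun y => δ y * (b y / C), fun y => δ y * (a y / C),
    ⟨hx, by simp [hC]⟩, ⟨ho, fun y hy => (hd.hol y hy.1).mul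
      ((hh y hy.1).2.div (holAt_const _) hC1), fun y hy => ?_, fun y hy => ?_⟩,
    fun y hy => (hd.hol y hy.1).mul ((hh y hy.1).1.div (holAt_const _) hC1), fun y hy h0 => ?_⟩
  · exact ((hd.ne y hy.1).and_eventually (hd.op.mem_nhds hy.1)).mono fun z hz =>
      mul_ne_zero hz.1 (div_ne_zero (he z hz.2 hz.1).1 hC1)
  · rw [norm_mul, norm_div, norm_real, Real.norm_of_nonneg hC0.le]
    exact mul_le_one₀ (hd.le y hy.1) (by positivity)
      ((div_le_one hC0).2 (mem_ball_zero_iff.1 hy.2).le)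
  · have h1 := left_ne_zero_of_mul h0
    obtain ⟨h2, h3⟩ := he y hy.1 h1
    rw [h3]
    field_simp

end FSTB

open FSTB in
theorem st_FST (hLOC : St_LOC) (hUNI : St_UNI) (hLGC : St_LGC) (hH1A : St_H1A) (hPIC : St_PIC)
    (hHARM : KP.St_HARM) : St_FST := by
  intro n M _ _ G W g hn hG hW hg hL
  obtain ⟨m, q, l, hq, hl0, hli, h⟩ := hLOC n M W g hg hL
  choose O δ a b A hx hc using h
  obtain ⟨U, hU, hUe⟩ := hUNI n M _ M.X W g l O δ a b A hli hc
  choose h hh hhe using hLGC n M _ M.X l O U A hli (fun u => (hc u).dv.op) hU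
    (fun u => (hc u).hA) fun u v y hu hv => (hUe u v y hu hv).1
  choose O' B hO' hB using fun i =>
    hH1A n M G O (h i) hn hG (fun x => ⟨(hc x).dv.op, hx x⟩) (hh i)
  set P : M.X → Set M.X := fun x => ⋂ i, O' i x with hP
  have hPo : ∀ x, IsOpen (P x) := fun x => isOpen_iInter_of_finite fun i => (hO' i x).1
  have hPx : ∀ x, x ∈ P x := fun x => mem_iInter.2 fun i => (hO' i x).2.1
  have hPi : ∀ i x, ∀ y ∈ P x, y ∈ O' i x := fun i x y hy => mem_iInter.1 hy i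
  have hPO : ∀ x, ∀ y ∈ P x, y ∈ O x := fun x y hy => (hO' 0 x).2.2.1 (hPi 0 x y hy)
  have hBh : ∀ i x, ∀ y ∈ P x, HolAt M (B i x) y := fun i x y hy =>
    (hO' i x).2.2.2 y (hPi i x y hy)
  have hBU : ∀ i u v y, y ∈ P u → y ∈ P v →
      2 * (B i v y - B i u y).re = Real.log (normSq (U i u v y)) := fun i u v y hu hv => by
    rw [hB i u v y (hPi i u y hu) (hPi i v y hv), hhe i u v y (hPO u y hu) (hPO v y hv)]
  choose K hK hKe using fun i => hPIC n M M.X P (U i) (B i) hPo (fun x => ⟨x, hPx x⟩)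
    ⟨fun u v y hu hv => (hU i).hol u v y (hPO u y hu) (hPO v y hv),
      fun u v w y hu hv hw => (hU i).coc u v w y (hPO u y hu) (hPO v y hv) (hPO w y hw)⟩
    (hBh i) (hBU i)
  set W' : Set M.X := {y | ∃ x, y ∈ P x ∧ δ x y ≠ 0} with hW'
  set f : Fin (m + 1) → M.X → ℂ := fun i y =>
    if hy : y ∈ W' then K i hy.choose y * (a hy.choose i y / b hy.choose i y) else 0 with hf
  have key : ∀ i x y, y ∈ P x → δ x y ≠ 0 → f i y = K i x y * (a x i y / b x i y) := by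
    intro i x y hy h0
    have h1 : y ∈ W' := ⟨x, hy, h0⟩
    obtain ⟨h2, h3⟩ := h1.choose_spec
    simp only [hf, dif_pos h1]
    rw [hKe i x _ y hy h2, (hUe x _ y (hPO _ y hy) (hPO _ y h2)).2 h0 h3 i, mul_assoc]
  have hnear : ∀ x y, y ∈ P x → δ x y ≠ 0 → ∀ᶠ z in 𝓝 y, z ∈ P x ∧ δ x z ≠ 0 := fun x y hy h0 =>
    ((hPo x).eventually_mem hy).and (((hc x).dv.hol y (hPO x y hy)).cont.eventually_ne h0)
  set R : M.X → ℝ := fun y => 2 * (A y y - ∑ i, l i * B i y y).re with hR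
  have hRe : ∀ x, ∀ y ∈ P x, R y = 2 * (A x y - ∑ i, l i * B i x y).re := fun x y hy => by
    have h1 := (hUe x y y (hPO x y hy) (hx y)).1
    simp only [← hBU _ x y y hy (hPx y), sub_re, mul_sub, Finset.sum_sub_distrib] at h1
    simp only [hR, sub_re, re_sum, re_ofReal_mul, mul_sub, Finset.mul_sum]
    have e : ∀ (s : Fin (m + 1) → ℝ), ∑ i, 2 * (l i * s i) = ∑ i, l i * (2 * s i) := fun s =>
      Finset.sum_congr rfl fun i _ => by ring
    rw [e, e]
    linarith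
  have hRp : ∀ x, SmAt M R x ∧ EqAt M (M.hs R) 0 x := fun x =>
    ph_re (((hc x).hA x (hx x)).sub (holAt_sum fun i _ =>
      (holAt_const _).mul (hBh i x x (hPx x)))) (((hPo x).eventually_mem (hPx x)).mono (hRe x))
  obtain ⟨c, hcc⟩ := hHARM n M G R hG (KA.sm_of_smAt fun x => (hRp x).1) fun x => by
    have h1 : M.ev (M.hs R) x = 0 := KA.at_ch (hRp x).2
    simp [Mf.lap, Mf.tr, h1]
  refine ⟨m, q, l, f, W', c, hq, hl0, hli, ⟨isOpen_iff_mem_nhds.2 ?_, fun x =>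
    ⟨P x, δ x, hPx x, dv_mono (hc x).dv (hPo x) (hPO x), fun y hy h0 => ⟨x, hy, h0⟩⟩⟩, ?_,
    fun i => mer_of fun x => ⟨P x, δ x, fun y => K i x y * a x i y, b x i, hPx x,
      dv_mono (hc x).dv (hPo x) (hPO x), fun y hy => ⟨(hK i x y hy).1.mul
        ((hc x).ha i y (hPO x y hy)), (hc x).hb i y (hPO x y hy)⟩, fun y hy h0 =>
      ⟨(((hc x).eq y (hPO x y hy) h0).2.1 i).2, by rw [key i x y hy h0, mul_div_assoc]⟩⟩, ?_⟩
  · rintro y ⟨x, hy, h0⟩
    exact (hnear x y hy h0).mono fun z hz => ⟨x, hz⟩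
  · rintro y ⟨x, hy, h0⟩
    exact ((hc x).eq y (hPO x y hy) h0).1
  · rintro y ⟨x, hy, h0⟩
    obtain ⟨-, h1, h2⟩ := (hc x).eq y (hPO x y hy) h0
    refine ⟨fun i => ⟨((hK i x y hy).1.mul (((hc x).ha i y (hPO x y hy)).div
      ((hc x).hb i y (hPO x y hy)) (h1 i).2)).congr
        ((hnear x y hy h0).mono fun z hz => key i x z hz.1 hz.2), ?_⟩, ?_⟩
    · rw [key i x y hy h0]
      exact mul_ne_zero (hK i x y hy).2.1 (div_ne_zero (h1 i).1 (h1 i).2)
    · have h3 : ∀ i, Real.log (normSq (f i y)) =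
          2 * (B i x y).re + Real.log (normSq (a x i y / b x i y)) := fun i => by
        rw [key i x y hy h0, map_mul, Real.log_mul (normSq_pos.2 (hK i x y hy).2.1).ne'
          (normSq_pos.2 (div_ne_zero (h1 i).1 (h1 i).2)).ne', (hK i x y hy).2.2]
      rw [h2, ← hcc y, hRe x y hy]
      simp only [h3, mul_add, Finset.sum_add_distrib, sub_re, re_sum, re_ofReal_mul, mul_sub,
        Finset.mul_sum]
      have e : ∑ i, 2 * (l i * (B i x y).re) = ∑ i, l i * (2 * (B i x y).re) :=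
        Finset.sum_congr rfl fun i _ => by ring
      rw [e]
      ring

end Pool.Agent.Lib.RAF
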