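import Pool.Agent.Lib.RAF.BlueF

/-! Project ra1, step F, row SUM: the sums over the related points. -/

open scoped Classical Topology
open Set Filter

set_option linter.unusedVariables false

noncomputable section

namespace Pool.Agent.Lib.RA

open Pool.Agent.Lib.HS32

theorem st_FSUM (hHM : St_FHM) (hLG : St_FLG) (hREL : St_FREL) (hRCL : St_FRCL) : St_FSUM := by
  intro n k M ρ b u L W S N C _ ja z0 lin hC hW hξ lL lu sL su
  obtain ⟨gp, -, -, ph, p0, -⟩ := hHM n M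
  have cg : ∀ x y y', y =ᶠ[𝓝 x] y' → TR M ρ u x y → TR M ρ u x y' := fun x y y' e h =>
    ⟨(h.ex.and e).mono fun x' a => a.2 ▸ a.1,
      fun i => ((ph x _).1 (h.ph i)).2.2.1 _ (e.mono fun x' a => by simp only [a]),
      ((ph x _).1 h.p0).2.2.1 _ (e.mono fun x' a => by simp only [a])⟩
  have ev : ∀ x y, TR M ρ u x y → ∀ᶠ x' in 𝓝 x, TR M ρ u x' y := fun x y h => by
    filter_upwards [h.ex.eventually_nhds, eventually_all.2 fun i => ((ph x _).1 (h.ph i)).1,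
      ((ph x _).1 h.p0).1] with x' a b c using ⟨a, b, c⟩
  have sh : ∀ x ∈ W, ShAt (HM M) (Sel (HM M) S (TR M ρ u)) x := fun x hx =>
    (hC.sh x hx).sel gp cg fun s hs => by
      obtain ⟨h1, h2, h3⟩ := hW x hx
      exact (em _).imp (fun h => ev x s
        (hRCL n k M ρ b u x s ja z0 hs.1 h1 (h3 _ hs.mem).1 h2 (h3 _ hs.mem).2 h)) not_frequently.1
  have card : ∀ x ∈ W, (Sel (HM M) S (TR M ρ u) x).ncard ≤ N := fun x hx =>
    (ncard_le_ncard (sel_subset x) (hC.sh x hx).finite).trans (hC.card x hx)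
  have pha : ∀ x ∈ W, ∀ g : M.X → M.X → ℝ, (∀ s, TR M ρ u x s → PhAt M (fun x' => g x' (s x')) x) →
      PhAt M (fun x' => ∑ᶠ y ∈ Sel (HM M) S (TR M ρ u) x', g x' y) x := fun x hx g hg =>
    (sh x hx).sum_ind (H := fun f => PhAt M f x) (fun f f' e h => ((ph x f).1 h).2.2.1 f' e)
      (p0 x 0) (fun f f' h h' => (((ph x f).1 h).2.2.2.2 f' h').1)
      fun s hs => hg s (((hC.sh x hx).sct_sel gp cg).1 hs).2.self_of_nhds
  obtain ⟨l1, l2, -⟩ := hLG n M W (Sel (HM M) S (TR M ρ u))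
  have l3 := fun g h => ((hLG n M W S).2.1 g h).2.1 _ (sel_subset (Q := HM M) (T := TR M ρ u))
  have l4 := fun g h => (l2 g h).2.2.1 N fun x hx => ⟨(sh x hx).finite, card x hx⟩
  have lx : LogS M W (Sel (HM M) S (TR M ρ u)) fun x y => ‖xi ρ x y‖ :=
    (l2 _ (l1 L lL)).2.2.2 _ _ C (l3 _ sL) fun x hx y hy => by
      rw [abs_norm]
      refine hξ x hx y (sel_subset x hy) _ ?_
      obtain ⟨s, -, rfl, h⟩ := hy
      obtain ⟨ξ, h⟩ := h.ex.self_of_nhds
      exact (hREL k M.X ρ).2.1 _ _ ξ h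
  have lv : LogS M W (Sel (HM M) S (TR M ρ u)) fun x y => |u x| + |u y| :=
    (l2 _ (l1 u lu)).2.2.2 _ _ 1 (l3 _ su) fun x hx y hy => by
      rw [abs_of_nonneg (by positivity)]
      linarith
  refine ⟨⟨hC.cot, sh, card⟩, fun i => ⟨fun x hx => pha x hx _ fun s h => h.ph i,
    l4 _ ((l2 _ lx).2.2.2 _ _ 1 lx fun x _ y _ => ?_)⟩,
    fun x hx => pha x hx (fun x y => u y - ρ (xi ρ x y) y - u x) fun s h => h.p0,
    l4 _ ((l2 _ lx).2.2.2 _ _ (|C| + 1) lv fun x _ y _ => ?_)⟩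
  · have := norm_le_pi_norm (xi ρ x y) i
    rw [abs_norm]
    linarith [norm_nonneg (xi ρ x y), Real.norm_eq_abs (xi ρ x y i)]
  · have h1 := (lin (xi ρ x y) y).trans (mul_le_mul_of_nonneg_right (le_abs_self C) (norm_nonneg _))
    have h2 := abs_sub (u y - ρ (xi ρ x y) y) (u x)
    have h3 := abs_sub (u y) (ρ (xi ρ x y) y)
    rw [abs_norm, abs_of_nonneg (show 0 ≤ |u x| + |u y| by positivity)]
    nlinarith [norm_nonneg (xi ρ x y), abs_nonneg C, abs_nonneg (u x), abs_nonneg (u y),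
      mul_nonneg (abs_nonneg C) (abs_nonneg (u x)), mul_nonneg (abs_nonneg C) (abs_nonneg (u y))]

end Pool.Agent.Lib.RA
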