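import Pool.Agent.Lib.RAF.BlueF
import Pool.Agent.Lib.RA.B_MER
import Pool.Agent.Lib.RA.K_At
import Pool.Agent.Lib.PN.Kit

/-! Project ra1, step F: the consequences of coercivity. -/

open scoped Classical Topology ContDiff ComplexOrder Matrix
open Set MeasureTheory Complex Metric Filter

set_option linter.unusedVariables false

noncomputable section

namespace Pool.Agent.Lib.RA

open Pool.Agent.Lib.SV (E nsq)
open Pool.Agent.Lib.HS32 Pool.Agent.Lib.PN

namespace FU0

variable {n m : ℕ} {M : Mf n} {ι : Type} [Fintype ι] {f : M.X → ι → ℂ} {i : ι} {x : M.X}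
  {θ : M.X → ℂ}

theorem nsq_af (h : f x i ≠ 0) : nsq (af f i x) = nsq (f x) / normSq (f x i) := by
  simp only [nsq, af, map_div₀, Finset.sum_div]

theorem cont_log (hf : PMap M f) (hs : SecO M f m θ) (h : θ x ≠ 0) :
    ContinuousAt (fun y => Real.log (no f m θ y)) x := by
  obtain ⟨i, hi⟩ := Function.ne_iff.1 (hf.ne x)
  have hi : f x i ≠ 0 := hi
  have c1 : ContinuousAt (fun y => normSq (θ y / f y i ^ m)) x :=
    continuous_normSq.continuousAt.comp (hs x i hi).cont
  have c2 : ContinuousAt (fun y => nsq (af f i y)) x := by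
    unfold nsq
    exact tendsto_finsetSum _ fun l _ =>
      continuous_normSq.continuousAt.comp (holAt_pi.1 (M86.pm_hol hf hi) l).cont
  have p : 0 < nsq (f x) := nsq_pos (hf.ne x)
  have q : 0 < normSq (f x i) := normSq_pos.2 hi
  have c3 : ContinuousAt (no f m θ) x := by
    refine (c1.div (c2.pow m) (by rw [Pi.pow_apply, nsq_af hi]; positivity)).congr ?_
    filter_upwards [(M86.pm_open hf i).mem_nhds hi] with y hy
    have hy : f y i ≠ 0 := hy
    simp only [Pi.div_apply, Pi.pow_apply, nsq_af hy, no, map_div₀, map_pow, div_pow]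
    rw [div_div_div_cancel_right₀ (pow_ne_zero _ (normSq_pos.2 hy).ne')]
  refine c3.log ?_
  have := normSq_pos.2 h
  unfold no
  positivity

end FU0

open FU0 in
theorem st_FU0 : St_FU0 := by
  intro n k M _ ι _ f φ ρ b i₀ m θ s hf hφ hC ⟨x₀, hx₀⟩ h0
  obtain ⟨c, C, c0, C0, hb⟩ := hC.bd
  refine ⟨hC.op.inter (M86.pm_open hf i₀), ⟨fun e he e' he' x hx hx' _ => ?_,
    fun x hx e he hxe => ⟨hC.sk.hol x i₀ hx.2 e he hxe, ?_⟩, fun e he z hz => ?_⟩, fun x hx => ?_,
    C + (n + 1) + C / c, fun x hx hi => ?_, fun x y ξ hx hy hR => ?_⟩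
  · simp only [sz, e.left_inv hx, e'.left_inv hx', hC.sk.cmp e he e' he' x hx hx']
    ring
  · have h1 := ((hb x).2.2 hx.1).2.1
    rw [Mf.ev, hC.sk.cmp e he _ (Mf.ch_mem x) x hxe (Mf.mem_ch x)] at h1
    simp only [sz, e.left_inv hxe]
    exact div_ne_zero (left_ne_zero_of_mul h1) (pow_ne_zero _ hx.2)
  · obtain ⟨i, hi⟩ := Function.ne_iff.1 (hf.ne (e.symm z))
    have hi : f (e.symm z) i ≠ 0 := hi
    have ev : ∀ᶠ w in 𝓝 z, f (e.symm w) i ≠ 0 :=
      (KA.ev_iff' hz).1 ((M86.pm_open hf i).mem_nhds hi)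
    have fr : ∃ᶠ w in 𝓝 z, f (e.symm w) i₀ ≠ 0 := by
      have := (fr_ch (e.map_target hz)).1 (M86.pm_freq hf hx₀ (e.symm z))
      rwa [e.right_inv hz] at this
    refine ⟨fun w => s e w / f (e.symm w) i ^ (n + 1), fun w => af f i (e.symm w) i₀ ^ (n + 1),
      KA.at_tgt he hz (hC.sk.hol _ i hi),
      KA.at_tgt he hz ((holAt_pi.1 (M86.pm_hol hf hi) i₀).pow (n + 1)),
      (fr.and_eventually ev).mono fun w hw => pow_ne_zero _ (div_ne_zero hw.1 hw.2),
      ev.mono fun w hw _ _ => ?_⟩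
    simp only [sz, af, div_pow]
    rw [div_div_div_cancel_right₀ (pow_ne_zero _ hw)]
  · refine ⟨c, C * (1 + (|Real.log (no f m θ x)| + 1)), c0, ?_⟩
    filter_upwards [hC.op.mem_nhds hx, (cont_log hf hC.so hx).abs.eventually_lt_const
      (lt_add_one |Real.log (no f m θ x)|)] with y h1 h2 ξ
    have h3 := ((hb y).2.2 h1).1 ξ
    nlinarith
  · obtain ⟨-, h1, h2⟩ := hb x
    obtain ⟨-, h2, h3⟩ := h2 hx
    have p : 0 < nsq (f x) := nsq_pos (hf.ne x)
    have q : 0 < normSq (f x i₀) := normSq_pos.2 hi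
    have r : 0 < normSq (M.ev s x) := normSq_pos.2 h2
    have e1 : lgs M φ 1 (sz M f i₀ s) x =
        Real.log (nk M φ f (n + 1) s x) + (n + 1) * Real.log (nsq (af f i₀ x)) := by
      have : M.ev (sz M f i₀ s) x = M.ev s x / f x i₀ ^ (n + 1) := by
        simp only [Mf.ev, sz, (M.ch x).left_inv (Mf.mem_ch x)]
      rw [lgs, this, nk, nsq_af hi, map_div₀, map_pow, Real.log_div r.ne' (by positivity),
        Real.log_div (by positivity) (by positivity), Real.log_div p.ne' q.ne',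
        Real.log_mul r.ne' (Real.exp_pos _).ne', Real.log_exp, Real.log_pow, Real.log_pow]
      push_cast
      ring
    have h4 : Real.log (nk M φ f (n + 1) s x) ≤ C :=
      (Real.log_le_self (by unfold nk; positivity)).trans h1
    have a1 := abs_nonneg (Real.log (no f m θ x))
    have a2 := abs_nonneg (Real.log (nsq (af f i₀ x)))
    have h5 : |Real.log (nk M φ f (n + 1) s x)| ≤ C * (1 + |Real.log (no f m θ x)|) :=
      abs_le.2 ⟨h3, by nlinarith⟩
    have h6 : 0 < C / c := by positivity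
    have h7 : (0 : ℝ) < n + 1 := by positivity
    rw [e1]
    refine (abs_add_le _ _).trans ?_
    rw [abs_mul, abs_of_pos h7]
    nlinarith [mul_nonneg h6.le a1, mul_nonneg h6.le a2, mul_nonneg h7.le a1, mul_nonneg C0.le a2]
  · have h1 := ((hb x).2.2 hx).1 (-ξ)
    have h2 := ((hb y).2.2 hy).1 ξ
    rw [hR (-ξ), add_neg_cancel, h0, norm_neg, dotProduct_neg] at h1
    have a1 := abs_nonneg (Real.log (no f m θ x))
    have a2 := abs_nonneg (Real.log (no f m θ y))
    have h3 : ‖ξ‖ ≤ C / c * (1 + |Real.log (no f m θ x)| + |Real.log (no f m θ y)|) := by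
      rw [div_mul_eq_mul_div, le_div_iff₀ c0]
      nlinarith [mul_nonneg C0.le a1, mul_nonneg C0.le a2]
    refine h3.trans (mul_le_mul_of_nonneg_right (le_add_of_nonneg_left ?_) ?_) <;> positivity

end Pool.Agent.Lib.RA
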