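import Pool.Agent.Lib.RAF.BlueS
import Pool.Agent.Lib.RA.T_PH

/-! Project ra1: the real part of an additive holomorphic cocycle on a compact Kähler manifold
splits. -/

open scoped Classical Topology ContDiff ComplexOrder Matrix
open Set MeasureTheory Complex Metric Filter

set_option linter.unusedVariables false

noncomputable section

namespace Pool.Agent.Lib.RAF

open Pool.Agent.Lib.SV (E nsq)
open Pool.Agent.Lib.HS32 Pool.Agent.Lib.RA

namespace H1A

variable {n : ℕ} {M : Mf n}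

theorem sm_term {χ₁ χ₂ S : M.X → ℝ} {g : M.X → ℂ} {O₁ O₂ : Set M.X} (h₁ : M.Sm χ₁)
    (h₂ : M.Sm χ₂) (hS : M.Sm S) (h0 : ∀ y, S y ≠ 0) (t₁ : tsupport χ₁ ⊆ O₁)
    (t₂ : tsupport χ₂ ⊆ O₂) (hg : ∀ y, y ∈ O₁ → y ∈ O₂ → HolAt M g y) (y : M.X) :
    SmAt M (fun p => (χ₁ p * χ₂ p / S p) • g p) y := by
  have hz : SmAt M (fun _ : M.X => (0 : ℂ)) y := fun e he hy => contDiffAt_const
  by_cases a : y ∈ O₁
  · by_cases b : y ∈ O₂
    · intro e he hy
      refine (((KA.smAt_of_sm h₁ y e he hy).mul (KA.smAt_of_sm h₂ y e he hy)).div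
        (KA.smAt_of_sm hS y e he hy) (h0 _)).smul
        (KA.cd_of_an (KA.an_of_hol (hg y a b e he hy)))
    · refine KA.smAt_congr hz ?_
      filter_upwards [notMem_tsupport_iff_eventuallyEq.1 fun c => b (t₂ c)] with p hp
      simp [hp]
  · refine KA.smAt_congr hz ?_
    filter_upwards [notMem_tsupport_iff_eventuallyEq.1 fun c => a (t₁ c)] with p hp
    simp [hp]

end H1A

theorem st_H1A (hPOI : KP.St_POI) : St_H1A := by
  intro n M _ G O h hn hG hO hc
  choose χ hsm h01 h1 hts using fun x : M.X =>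
    (mCOV n M).2.2.2.2.2 {x} (O x) isClosed_singleton (hO x).1 (singleton_subset_iff.2 (hO x).2)
  simp only [nhdsSet_singleton] at h1
  obtain ⟨t, -, ht⟩ := isCompact_univ.elim_nhds_subcover (fun x => {y | χ x y = 1})
    fun x _ => h1 x
  set S : M.X → ℝ := fun y => ∑ c ∈ t, χ c y with hSd
  have hS0 : ∀ y, S y ≠ 0 := fun y => by
    obtain ⟨c, hct, hy⟩ := mem_iUnion₂.1 (ht (mem_univ y))
    refine (Finset.sum_pos' (fun i _ => (h01 i y).1) ⟨c, hct, ?_⟩).ne'
    rw [show χ c y = 1 from hy]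
    exact one_pos
  have hS : M.Sm S := fun e he z hz => ContDiffAt.sum fun c _ => hsm c e he z hz
  set β : M.X → M.X → ℂ := fun x y => ∑ c ∈ t, (χ x y * χ c y / S y) • h c x y with hβ
  have hβs : ∀ x, M.Sm (β x) := fun x => KA.sm_of_smAt fun y e he hy =>
    ContDiffAt.sum fun c _ => H1A.sm_term (hsm x) (hsm c) hS hS0 (hts x) (hts c)
      (fun p a b => hc.hol c x p b a) y e he hy
  have hd : ∀ u v y, y ∈ O u → y ∈ O v → χ u y = 1 → χ v y = 1 → β v y - β u y = h u v y := by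
    intro u v y a b c d
    have e1 : ∀ k ∈ t, (χ v y * χ k y / S y) • h k v y - (χ u y * χ k y / S y) • h k u y =
        (χ k y / S y) • h u v y := fun k _ => by
      rw [c, d, one_mul, ← smul_sub]
      by_cases q : χ k y = 0
      · simp [q]
      · rw [← hc.coc k u v y (hts k (subset_tsupport _ q)) a b, add_sub_cancel_left]
    simp only [hβ]
    rw [← Finset.sum_sub_distrib, Finset.sum_congr rfl e1, ← Finset.sum_smul, ← Finset.sum_div,
      div_self (hS0 y), one_smul]
  obtain ⟨w, hw, hw0⟩ := st_H1O hPOI n M G β hn hG hβs fun x => by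
    filter_upwards [(h1 x).eventually_nhds, (hO x).1.mem_nhds (hO x).2] with y a b
    refine KA.holAt_congr (g := fun p => β x p - β y p) (hc.hol y x y (hO y).2 b) ?_
    filter_upwards [a, h1 y, (hO x).1.mem_nhds b, (hO y).1.mem_nhds (hO y).2] with p c d f g
    exact hd y x p g f d c
  have key : ∀ x, ∃ (O' : Set M.X) (B : M.X → ℂ), IsOpen O' ∧ x ∈ O' ∧ ∀ y ∈ O', y ∈ O x ∧
      χ x y = 1 ∧ HolAt M B y ∧ 2 * (β x y).re + w y = 2 * (B y).re := fun x => by
    have he := Mf.ch_mem x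
    have hx := Mf.mem_ch x
    set e := M.ch x
    obtain ⟨r, hr, hb⟩ := Metric.eventually_nhds_iff_ball.1 ((((KA.ev_iff hx).1
      (((h1 x).and ((hO x).1.mem_nhds (hO x).2)).and (hw0 x))).and
      (e.open_target.mem_nhds (e.map_source hx))))
    obtain ⟨A, hA, hA2, -⟩ := st_PH n (ball (e x) r)
      (fun z => 2 * (β x (e.symm z)).re + w (e.symm z)) isOpen_ball (convex_ball _ _)
      (fun z hz => (contDiffAt_const.mul (reCLM.contDiff.contDiffAt.comp z
        (hβs x e he z (hb z hz).2))).add (hw e he z (hb z hz).2)) fun z hz => by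
        have := (hb z hz).1.2 e he (e.map_target (hb z hz).2)
        rwa [e.right_inv (hb z hz).2] at this
    refine ⟨e.source ∩ e ⁻¹' ball (e x) r, fun y => A (e y),
      e.continuousOn.isOpen_inter_preimage e.open_source isOpen_ball, ⟨hx, mem_ball_self hr⟩,
      fun y hy => ?_⟩
    have a := (hb _ hy.2).1.1
    have b := hA2 _ hy.2
    simp only [e.left_inv hy.1] at a b
    exact ⟨a.2, a.1, holAt_comp_ch he hy.1 (KA.holN_of_on isOpen_ball hA hy.2), b⟩
  choose O' B k1 k2 k3 using key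
  refine ⟨O', B, fun x => ⟨k1 x, k2 x, fun y hy => (k3 x y hy).1, fun y hy => (k3 x y hy).2.2.1⟩,
    fun u v y a b => ?_⟩
  rw [← hd u v y (k3 u y a).1 (k3 v y b).1 (k3 u y a).2.1 (k3 v y b).2.1, sub_re, sub_re]
  linarith [(k3 u y a).2.2.2, (k3 v y b).2.2.2]

end Pool.Agent.Lib.RAF
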