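import Pool.Agent.Lib.RAF.BlueS
import Pool.Agent.Lib.RA.T_LD
import Pool.Agent.Lib.RA.T_QB

/-! Local decompositions with one family of coefficients. -/

open scoped Classical Topology
open Set Complex Filter

set_option linter.unusedVariables false

noncomputable section

namespace Pool.Agent.Lib.RAF

open Pool.Agent.Lib.SV (E)
open Pool.Agent.Lib.HS32 Pool.Agent.Lib.RA

namespace LOC

theorem one {n : ℕ} {M : Mf n} {W : Set M.X} {g : M.X → ℝ} (hp : ∀ x ∈ W, PhAt M g x)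
    (hl : LogT M W g) (x : M.X) : ∃ (O : Set M.X) (δ : M.X → ℂ) (m : ℕ) (r : Fin m → ℝ)
      (H : Fin m → M.X → ℂ) (A : M.X → ℂ), x ∈ O ∧ Dv M O δ ∧ ∀ y ∈ O, HolAt M A y ∧
      (∀ i, HolAt M (H i) y) ∧ (δ y ≠ 0 → y ∈ W ∧ (∀ i, H i y ≠ 0) ∧
        g y = ∑ i, r i * Real.log (normSq (H i y)) + 2 * (A y).re) := by
  obtain ⟨O, δ, C, hx, hd, hb⟩ := hl x
  have he := Mf.ch_mem x
  have hs := Mf.mem_ch x
  obtain ⟨m, r, H, A, h1, h2, h3⟩ := st_LDH n (g ∘ (M.ch x).symm) (δ ∘ (M.ch x).symm) (M.ch x x) C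
    (hd.hol x hx).ch ((fr_ch hs).1 (hd.ne x hx)) (by
      filter_upwards [(ev_ch hs).1 (hd.op.mem_nhds hx), (M.ch x).open_target.mem_nhds
        (Mf.ch_tgt x)] with w h1 h2 h3
      obtain ⟨h4, h5⟩ := hb _ h1 h3
      obtain ⟨h6, h7⟩ := (hp _ h4).self_of_nhds
      refine ⟨KA.at_tgt he h2 h6, KA.at_tgt he h2 h7, h5.trans_eq ?_⟩
      rw [Function.comp_apply, abs_of_nonpos (Real.log_nonpos (norm_nonneg _) (hd.le _ h1)),
        sub_eq_add_neg])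
  obtain ⟨O', h4, h5, h6⟩ := _root_.eventually_nhds_iff.1 ((hd.op.eventually_mem hx).and
    (((M.ch x).open_source.eventually_mem hs).and ((holAt_comp_ch he hs h2).near.and
      ((eventually_all.2 fun i => (holAt_comp_ch he hs (h1 i)).near).and (ev_ch' hs h3)))))
  refine ⟨O', δ, m, r, fun i y => H i (M.ch x y), fun y => A (M.ch x y), h6,
    ⟨h5, fun y hy => hd.hol y (h4 y hy).1, fun y hy => hd.ne y (h4 y hy).1,
      fun y hy => hd.le y (h4 y hy).1⟩, fun y hy => ?_⟩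
  obtain ⟨h7, h8, h9, h10, h11⟩ := h4 y hy
  simp only [Function.comp_apply, (M.ch x).left_inv h8] at h11
  exact ⟨h9, h10, fun h => ⟨(hb y h7 h).1, h11 h⟩⟩

theorem log_quot {ι : Type} [Fintype ι] {H : ι → ℂ} (h : ∀ i, H i ≠ 0) (a : ι → ℤ) :
    Real.log (normSq ((∏ i, H i ^ (a i).toNat) / ∏ i, H i ^ (-a i).toNat)) =
      ∑ i, a i * Real.log (normSq (H i)) := by
  have h1 : ∀ i, normSq (H i) ≠ 0 := fun i => (normSq_pos.2 (h i)).ne'
  rw [← Finset.prod_div_distrib, map_prod, Real.log_prod fun i _ => (normSq_pos.2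
    (div_ne_zero (pow_ne_zero _ (h i)) (pow_ne_zero _ (h i)))).ne']
  refine Finset.sum_congr rfl fun i _ => ?_
  rw [map_div₀, map_pow, map_pow, Real.log_div (pow_ne_zero _ (h1 i)) (pow_ne_zero _ (h1 i)),
    Real.log_pow, Real.log_pow, ← sub_mul]
  congr 1
  exact_mod_cast Int.toNat_sub_toNat_neg (a i)

end LOC

theorem st_LOC : St_LOC := by
  intro n M _ W g hp hl
  choose O δ m r H A h1 h2 h3 using LOC.one hp hl
  obtain ⟨t, ht⟩ := isCompact_univ.elim_finite_subcover O (fun x => (h2 x).op)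
    fun x _ => mem_iUnion.2 ⟨x, h1 x⟩
  obtain ⟨k, q, l, hq, h0, hi, ha⟩ := st_QB.1 (Σ u : t, Fin (m u)) fun p => r p.1 p.2
  choose a ha using ha
  refine ⟨k, q, l, hq, h0, hi, fun x => ?_⟩
  obtain ⟨u, hu, hx⟩ := mem_iUnion₂.1 (ht (mem_univ x))
  refine ⟨O u, δ u, fun j y => ∏ i, H u i y ^ (a ⟨⟨u, hu⟩, i⟩ j).toNat,
    fun j y => ∏ i, H u i y ^ (-a ⟨⟨u, hu⟩, i⟩ j).toNat, A u, hx, h2 u, fun y hy => (h3 u y hy).1,
    fun j y hy => holAt_prod fun i _ => ((h3 u y hy).2.1 i).pow _,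
    fun j y hy => holAt_prod fun i _ => ((h3 u y hy).2.1 i).pow _, fun y hy h => ?_⟩
  obtain ⟨h4, h5, h6⟩ := (h3 u y hy).2.2 h
  refine ⟨h4, fun j => ⟨Finset.prod_ne_zero_iff.2 fun i _ => pow_ne_zero _ (h5 i),
    Finset.prod_ne_zero_iff.2 fun i _ => pow_ne_zero _ (h5 i)⟩, ?_⟩
  simp only [LOC.log_quot h5, Finset.mul_sum]
  rw [h6, Finset.sum_comm]
  refine congrArg₂ _ (Finset.sum_congr rfl fun i _ => ?_) rfl
  rw [show r u i = _ from ha ⟨⟨u, hu⟩, i⟩, Finset.sum_mul]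
  exact Finset.sum_congr rfl fun j _ => by ring

end Pool.Agent.Lib.RAF
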