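import Pool.Agent.Lib.RAF.BlueS
import Pool.Agent.Lib.RA.T_U1
import Pool.Agent.Lib.RA.B_R0

/-! Project ra1: a flat cocycle on a simply connected manifold splits. -/

open scoped Classical Topology ContDiff ComplexOrder Matrix
open Set MeasureTheory Complex Metric Filter

set_option linter.unusedVariables false

noncomputable section

namespace Pool.Agent.Lib.RAF

open Pool.Agent.Lib.SV (E nsq)
open Pool.Agent.Lib.HS32 Pool.Agent.Lib.RA

namespace PIC

theorem hexp {n : ℕ} {M : Mf n} {f : M.X → ℂ} {x : M.X} (h : HolAt M f x) :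
    HolAt M (fun y => Complex.exp (f y)) x :=
  h.comp (φ := Complex.exp) (Eventually.of_forall fun _ => Complex.differentiableAt_exp)

theorem norm_one {U a b : ℂ} (hU : U ≠ 0) (h : 2 * (b - a).re = Real.log (normSq U)) :
    ‖U * Complex.exp (a - b)‖ = 1 := by
  have h0 : 0 < ‖U‖ := norm_pos_iff.2 hU
  rw [Complex.normSq_eq_norm_sq, Real.log_pow] at h
  have h1 : (a - b).re = -Real.log ‖U‖ := by
    rw [sub_re] at h ⊢
    push_cast at h
    linarith
  rw [norm_mul, Complex.norm_exp, h1, Real.exp_neg, Real.exp_log h0, mul_inv_cancel₀ h0.ne']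

end PIC

theorem st_PIC : St_PIC := by
  intro n M _ ι O U B hO hc hU hB hre
  have := R71.lpc M
  have hn : ∀ u v y, y ∈ O u → y ∈ O v → ‖U u v y * Complex.exp (B u y - B v y)‖ = 1 :=
    fun u v y hu hv => PIC.norm_one (hU.hol u v y hu hv).2 (hre u v y hu hv)
  obtain ⟨k, k1, k2, k3⟩ := st_U1C M.X ι O (fun u v y => U u v y * Complex.exp (B u y - B v y))
    hO hc hn (fun u v y hu hv => by
      refine const_of_norm (f := fun y => U u v y * Complex.exp (B u y - B v y))
        ((hU.hol u v y hu hv).1.mul (PIC.hexp ((hB u y hu).sub (hB v y hv)))) ?_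
      filter_upwards [(hO u).mem_nhds hu, (hO v).mem_nhds hv] with w a b using hn u v w a b)
    (fun u v w y hu hv hw => by
      rw [← hU.coc u v w y hu hv hw, mul_mul_mul_comm, ← Complex.exp_add, sub_add_sub_cancel])
  refine ⟨fun u y => k u y * Complex.exp (B u y), fun u y hy => ⟨?_, ?_, ?_⟩, fun u v y hu hv => ?_⟩
  · exact ((holAt_const (k u y)).congr (k2 u y hy)).mul (PIC.hexp (hB u y hy))
  · refine mul_ne_zero (fun h => ?_) (Complex.exp_ne_zero _)
    have := k1 u y
    rw [h, norm_zero] at this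
    exact zero_ne_one this
  · rw [Complex.normSq_eq_norm_sq, norm_mul, k1, one_mul, Complex.norm_exp, Real.log_pow,
      Real.log_exp]
    norm_num
  · show k v y * Complex.exp (B v y) = k u y * Complex.exp (B u y) * U u v y
    rw [k3 u v y hu hv, mul_assoc, mul_assoc, ← Complex.exp_add, sub_add_cancel]
    ring

end Pool.Agent.Lib.RAF
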