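import Pool.Agent.Lib.RAF.BlueS
import Pool.Agent.Lib.RA.T_UN

/-! The quotients of two local decompositions are units. -/

open scoped Classical Topology ContDiff ComplexOrder Matrix
open Set MeasureTheory Complex Metric Filter

set_option linter.unusedVariables false

noncomputable section

namespace Pool.Agent.Lib.RAF

open Pool.Agent.Lib.SV (E nsq)
open Pool.Agent.Lib.HS32 Pool.Agent.Lib.RA

namespace UNI

variable {n : ℕ} {M : Mf n} {κ : Type} [Fintype κ] {W O O' : Set M.X} {g : M.X → ℝ} {l : κ → ℝ}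
  {δ δ' A A' : M.X → ℂ} {a b a' b' : κ → M.X → ℂ} {y : M.X}

theorem gen (h : Lc M W g l O δ a b A) (hy : y ∈ O) : ∀ᶠ z in Gn y, z ∈ O ∧ δ z ≠ 0 :=
  (Gn_of_nhds (h.dv.op.mem_nhds hy)).and ((h.dv.hol y hy).ne_Gn (h.dv.ne y hy))

theorem rne (h : Lc M W g l O δ a b A) (hy : y ∈ O) (h0 : δ y ≠ 0) (i : κ) : a i y / b i y ≠ 0 :=
  div_ne_zero ((h.eq y hy h0).2.1 i).1 ((h.eq y hy h0).2.1 i).2

theorem logid (h : Lc M W g l O δ a b A) (h' : Lc M W g l O' δ' a' b' A') (hy : y ∈ O)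
    (hy' : y ∈ O') (h0 : δ y ≠ 0) (h0' : δ' y ≠ 0) {U : κ → ℂ}
    (hU : ∀ i, a i y / b i y = U i * (a' i y / b' i y)) :
    ∑ i, l i * Real.log (normSq (U i)) = 2 * (A' y - A y).re := by
  have e1 := (h.eq y hy h0).2.2
  have e2 := (h'.eq y hy' h0').2.2
  have e3 : ∀ i, l i * Real.log (normSq (a i y / b i y)) =
      l i * Real.log (normSq (U i)) + l i * Real.log (normSq (a' i y / b' i y)) := fun i => by
    have h1 := rne h hy h0 i
    rw [hU i] at h1 ⊢
    rw [map_mul, Real.log_mul (normSq_pos.2 (left_ne_zero_of_mul h1)).ne'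
      (normSq_pos.2 (right_ne_zero_of_mul h1)).ne', mul_add]
  simp only [e3, Finset.sum_add_distrib] at e1
  rw [sub_re]
  linarith

theorem unit (hl : LinearIndependent ℚ l) (h : Lc M W g l O δ a b A)
    (h' : Lc M W g l O' δ' a' b' A') (hy : y ∈ O) (hy' : y ∈ O') (i : κ) :
    ∃ w : M.X → ℂ, HolAt M w y ∧ w y ≠ 0 ∧
      ∀ᶠ z in 𝓝 y, δ z ≠ 0 → δ' z ≠ 0 → a i z / b i z = w z * (a' i z / b' i z) := by
  have hx := Mf.mem_ch y
  have hg := (gen h hy).and (gen h' hy')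
  have hO := (h.dv.op.eventually_mem hy).and (h'.dv.op.eventually_mem hy')
  have hc : ContinuousAt (fun z => |2 * (A' z - A z).re|) y :=
    (continuousAt_const.mul (continuous_re.continuousAt.comp
      ((h'.hA y hy').cont.sub (h.hA y hy).cont))).abs
  obtain ⟨w, w1, w2, w3⟩ := st_UND n κ l (fun j => (fun z => a j z * b' j z) ∘ (M.ch y).symm)
    (fun j => (fun z => b j z * a' j z) ∘ (M.ch y).symm) ((fun z => δ z * δ' z) ∘ (M.ch y).symm)
    (M.ch y y) (|2 * (A' y - A y).re| + 1) hl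
    (fun j => ⟨((h.ha j y hy).mul (h'.hb j y hy')).ch, ((h.hb j y hy).mul (h'.ha j y hy')).ch,
      (fr_ch (p := fun z => a j z * b' j z ≠ 0) hx).1 (freq_of_Gn (hg.mono fun z hz =>
        mul_ne_zero ((h.eq z hz.1.1 hz.1.2).2.1 j).1 ((h'.eq z hz.2.1 hz.2.2).2.1 j).2)),
      (fr_ch (p := fun z => b j z * a' j z ≠ 0) hx).1 (freq_of_Gn (hg.mono fun z hz =>
        mul_ne_zero ((h.eq z hz.1.1 hz.1.2).2.1 j).2 ((h'.eq z hz.2.1 hz.2.2).2.1 j).1))⟩)
    ((h.dv.hol y hy).mul (h'.dv.hol y hy')).ch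
    ((fr_ch (p := fun z => δ z * δ' z ≠ 0) hx).1 (freq_of_Gn (hg.mono fun z hz =>
      mul_ne_zero hz.1.2 hz.2.2)))
    (by
      filter_upwards [(ev_ch hx).1 (hO.and (hc.eventually (gt_mem_nhds (lt_add_one _))))]
        with z hz h0 h1
      have h2 := left_ne_zero_of_mul h0
      have h3 := right_ne_zero_of_mul h0
      refine le_trans (le_of_eq (congrArg abs (logid h h' hz.1.1 hz.1.2 h2 h3 fun j => ?_))) hz.2.le
      have h4 := (h.eq _ hz.1.1 h2).2.1 j
      have h5 := (h'.eq _ hz.1.2 h3).2.1 j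
      simp only [Function.comp]
      field_simp [h4.1, h4.2, h5.1, h5.2]) i
  refine ⟨fun z => w (M.ch y z), holAt_comp_ch (Mf.ch_mem y) hx w1, w2, ?_⟩
  filter_upwards [ev_ch' hx w3, (M.ch y).open_source.mem_nhds hx, hO] with z h1 h2 h3 h4 h5
  simp only [Function.comp, (M.ch y).left_inv h2] at h1
  have h6 := (h.eq _ h3.1 h4).2.1 i
  have h7 := (h'.eq _ h3.2 h5).2.1 i
  rw [← mul_div_assoc, div_eq_div_iff h6.2 h7.2, h1]
  ring

end UNI

open UNI in
theorem st_UNI : St_UNI := by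
  intro n M κ ι _ W g l O δ a b A hl h
  choose! w w1 w2 w3 using fun i u v y (hy : y ∈ O u) (hy' : y ∈ O v) =>
    unit hl (h u) (h v) hy hy' i
  have hO : ∀ u v y, y ∈ O u → y ∈ O v → ∀ᶠ z in 𝓝 y, z ∈ O u ∧ z ∈ O v := fun u v y hy hy' =>
    ((h u).dv.op.eventually_mem hy).and ((h v).dv.op.eventually_mem hy')
  have hh : ∀ i u v y, y ∈ O u → y ∈ O v → HolAt M (fun z => w i u v z z) y := by
    intro i u v y hy hy'
    refine (w1 i u v y hy hy').congr ?_
    filter_upwards [hO u v y hy hy', (w1 i u v y hy hy').near,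
      (w3 i u v y hy hy').eventually_nhds] with z h1 h2 h3
    refine eq_of_Gn (w1 i u v z h1.1 h1.2).cont h2.cont ?_
    filter_upwards [Gn_of_nhds h3, Gn_of_nhds (w3 i u v z h1.1 h1.2), gen (h u) h1.1,
      gen (h v) h1.2] with t t1 t2 t3 t4
    exact mul_right_cancel₀ (rne (h v) t4.1 t4.2 i) ((t2 t3.2 t4.2).symm.trans (t1 t3.2 t4.2))
  have hr : ∀ u v y, y ∈ O u → y ∈ O v → δ u y ≠ 0 → δ v y ≠ 0 → ∀ i,
      a u i y / b u i y = w i u v y y * (a v i y / b v i y) := fun u v y hy hy' h0 h1 i =>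
    (w3 i u v y hy hy').self_of_nhds h0 h1
  refine ⟨fun i u v y => w i u v y y, fun i => ⟨fun u v y hy hy' =>
    ⟨hh i u v y hy hy', w2 i u v y hy hy'⟩, fun u v s y h1 h2 h3 => ?_⟩,
    fun u v y hy hy' => ⟨?_, hr u v y hy hy'⟩⟩
  · refine eq_of_Gn (f := fun z => w i u v z z * w i v s z z) (g := fun z => w i u s z z)
      ((hh i u v y h1 h2).mul (hh i v s y h2 h3)).cont (hh i u s y h1 h3).cont ?_
    filter_upwards [gen (h u) h1, gen (h v) h2, gen (h s) h3] with t t1 t2 t3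
    refine mul_right_cancel₀ (rne (h s) t3.1 t3.2 i) ?_
    rw [mul_assoc, ← hr v s t t2.1 t3.1 t2.2 t3.2, ← hr u v t t1.1 t2.1 t1.2 t2.2,
      ← hr u s t t1.1 t3.1 t1.2 t3.2]
  · refine eq_of_Gn (f := fun y => ∑ i, l i * Real.log (normSq (w i u v y y)))
      (g := fun y => 2 * (A v y - A u y).re) (tendsto_finsetSum _ fun i _ => ?_)
      (continuousAt_const.mul (continuous_re.continuousAt.comp
        (((h v).hA y hy').cont.sub ((h u).hA y hy).cont))) ?_
    · exact continuousAt_const.mul ((continuous_normSq.continuousAt.comp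
        (hh i u v y hy hy').cont).log (normSq_pos.2 (w2 i u v y hy hy')).ne')
    · filter_upwards [gen (h u) hy, gen (h v) hy'] with t t1 t2
      exact logid (h u) (h v) t1.1 t2.1 t1.2 t2.2 (hr u v t t1.1 t2.1 t1.2 t2.2)

end Pool.Agent.Lib.RAF
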