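import Pool.Agent.Lib.RAF.AsmF
import Pool.Agent.Lib.RAF.B_BAS
import Pool.Agent.Lib.RAF.B_BRK
import Pool.Agent.Lib.RAF.B_DESC
import Pool.Agent.Lib.RAF.B_FCOR
import Pool.Agent.Lib.RAF.B_FDS
import Pool.Agent.Lib.RAF.B_FDT
import Pool.Agent.Lib.RAF.B_FHM
import Pool.Agent.Lib.RAF.B_FINV
import Pool.Agent.Lib.RAF.B_FKIL
import Pool.Agent.Lib.RAF.B_FLG
import Pool.Agent.Lib.RAF.B_FLOC
import Pool.Agent.Lib.RAF.B_FNRM
import Pool.Agent.Lib.RAF.B_FRBX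
import Pool.Agent.Lib.RAF.B_FRCL
import Pool.Agent.Lib.RAF.B_FREL
import Pool.Agent.Lib.RAF.B_FSEC
import Pool.Agent.Lib.RAF.B_FSEL
import Pool.Agent.Lib.RAF.B_FST
import Pool.Agent.Lib.RAF.B_FSUM
import Pool.Agent.Lib.RAF.B_FU0
import Pool.Agent.Lib.RAF.B_H1A
import Pool.Agent.Lib.RAF.B_LGC
import Pool.Agent.Lib.RAF.B_LOC
import Pool.Agent.Lib.RAF.B_PIC
import Pool.Agent.Lib.RAF.B_UNI
import Pool.Agent.Lib.RAF.B_UNS
import Pool.Agent.Lib.RA.B_ATL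
import Pool.Agent.Lib.RA.B_EXT
import Pool.Agent.Lib.RA.B_MER
import Pool.Agent.Lib.RA.B_PCOV
import Pool.Agent.Lib.RA.B_WAD
import Pool.Agent.Lib.RA.B_X0
import Pool.Agent.Lib.KP.B_HARM
import Pool.Agent.Lib.KP.R_CPT
import Pool.Agent.Lib.KP.R_POI

/-! Project ra1: step F without hypotheses. -/

namespace Pool.Agent.Lib.RAF

open Pool.Agent.Lib.RA

theorem fPOI : KP.St_POI := KP.st_POI KP.st_HARM KP.st_CPT

theorem fFST : St_FST := st_FST st_LOC st_UNI st_LGC (st_H1A fPOI) st_PIC KP.st_HARM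

theorem fBAS : St_BAS := st_BAS st_DESC st_UNS st_BRK st_TV (st_WAD st_TV)
  (st_ATL1 st_TV st_EXT st_X0 st_PCOV (st_WAD st_TV)) st_MER

theorem fF : St_F := st_F st_FSEC st_FLG st_FKIL st_FSEL (st_FCOR st_FHM st_FINV) st_FNRM st_FU0
  (st_FSUM st_FHM st_FLG st_FREL (st_FRCL st_FHM)) (st_FRBX st_FHM st_FREL) (st_FLOC st_FHM st_FREL)
  st_FDS st_FDT fFST fBAS (st_BASF fBAS)

end Pool.Agent.Lib.RAF
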